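import Mathlib

set_option autoImplicit false

namespace Pool.Agent.P.MP_e66ac9_al

open IsLocalRing RingTheory.Sequence CategoryTheory Abelian Pointwise

universe u

section A1

variable {R : Type u} [CommRing R] [IsNoetherianRing R] [IsLocalRing R]

/-- depth is at most the dimension of the quotient by a prime killing a nonzero element -/
theorem length_le_coheight (rs : List R) :
    ∀ (M : Type u) [AddCommGroup M] [Module R M] [Module.Finite R M],
      (∀ r ∈ rs, r ∈ maximalIdeal R) → IsWeaklyRegular M rs →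
      ∀ (p : PrimeSpectrum R) (z : M), z ≠ 0 → (∀ r ∈ p.asIdeal, r • z = 0) →
        (rs.length : ℕ∞) ≤ Order.coheight p := by
  induction rs with
  | nil => intros; simp
  | cons x rs ih =>
    intro M _ _ _ hmem hreg p z hz hp
    rw [isWeaklyRegular_cons_iff] at hreg
    obtain ⟨hx, hrs⟩ := hreg
    have hxm : x ∈ maximalIdeal R := hmem x List.mem_cons_self
    let N : Submodule R M := Submodule.torsionBySet R M (p.asIdeal : Set R)
    have hN : ∀ w : M, w ∈ N ↔ ∀ r ∈ p.asIdeal, r • w = 0 := by
      intro w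
      simp [N, Submodule.mem_torsionBySet_iff]
    have hex : ∃ w ∈ N, w ∉ x • (⊤ : Submodule R M) := by
      by_contra hcon
      push Not at hcon
      have hle : N ≤ Ideal.span {x} • N := by
        rw [Submodule.ideal_span_singleton_smul]
        intro w hw
        obtain ⟨w', -, rfl⟩ := (Submodule.mem_smul_pointwise_iff_exists _ _ _).mp (hcon w hw)
        refine Submodule.smul_mem_pointwise_smul _ _ _ ?_
        rw [hN] at hw ⊢
        intro r hr
        have := hw r hr
        rw [smul_comm] at this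
        exact hx.right_eq_zero_of_smul this
      have hbot : N = ⊥ := by
        apply Submodule.eq_bot_of_le_smul_of_le_jacobson_bot (Ideal.span {x}) N
          (IsNoetherian.noetherian _) hle
        rw [Ideal.span_singleton_le_iff_mem]
        exact (maximalIdeal_le_jacobson _) hxm
      have : z ∈ N := (hN z).2 hp
      rw [hbot] at this
      exact hz (by simpa using this)
    obtain ⟨w, hwN, hwx⟩ := hex
    let wb : QuotSMulTop x M := Submodule.Quotient.mk w
    have hwb : wb ≠ 0 := by
      intro h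
      exact hwx ((Submodule.Quotient.mk_eq_zero _).1 h)
    obtain ⟨q, hq, hle⟩ := exists_le_isAssociatedPrime_of_isNoetherianRing R wb hwb
    obtain ⟨hqp, z', hz'⟩ := isAssociatedPrime_iff.1 hq
    have hz'0 : z' ≠ 0 := by
      rintro rfl
      apply hqp.ne_top
      rw [hz']
      simp
    have hq' := ih (QuotSMulTop x M) (fun r hr => hmem r (List.mem_cons_of_mem _ hr)) hrs
      ⟨q, hqp⟩ z' hz'0 (by
        intro r hr
        change r ∈ q at hr
        rw [hz', Submodule.mem_colon_singleton] at hr
        simpa using hr)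
    have hlt : p < ⟨q, hqp⟩ := by
      have h1 : p.asIdeal ≤ q := by
        intro r hr
        apply hle
        rw [Submodule.mem_colon_singleton, Submodule.mem_bot]
        change Submodule.Quotient.mk (r • w) = 0
        rw [(hN w).1 hwN r hr]
        simp
      have h2 : x ∈ q := by
        apply hle
        rw [Submodule.mem_colon_singleton, Submodule.mem_bot]
        change Submodule.Quotient.mk (x • w) = 0
        rw [Submodule.Quotient.mk_eq_zero]
        exact Submodule.smul_mem_pointwise_smul _ _ _ Submodule.mem_top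
      have h3 : x ∉ p.asIdeal := fun h => hz (hx.right_eq_zero_of_smul (hp x h))
      refine lt_of_le_of_ne h1 ?_
      intro h
      apply h3
      rw [h]
      exact h2
    calc ((x :: rs).length : ℕ∞) = rs.length + 1 := by simp
      _ ≤ Order.coheight (⟨q, hqp⟩ : PrimeSpectrum R) + 1 := by gcongr
      _ ≤ Order.coheight p := Order.coheight_add_one_le hlt

theorem length_le_coheight_of_ass (rs : List R) (M : Type u) [AddCommGroup M] [Module R M]
    [Module.Finite R M] (hmem : ∀ r ∈ rs, r ∈ maximalIdeal R) (hreg : IsWeaklyRegular M rs)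
    (p : PrimeSpectrum R) (hp : p.asIdeal ∈ associatedPrimes R M) :
    (rs.length : ℕ∞) ≤ Order.coheight p := by
  obtain ⟨hqp, z, hz⟩ := isAssociatedPrime_iff.1 hp
  have hz0 : z ≠ 0 := by
    rintro rfl
    apply hqp.ne_top
    rw [hz]
    simp
  refine length_le_coheight rs M hmem hreg p z hz0 ?_
  intro r hr
  rw [hz, Submodule.mem_colon_singleton] at hr
  simpa using hr

theorem length_le_coheight_of_minimal (rs : List R)
    (hmem : ∀ r ∈ rs, r ∈ maximalIdeal R) (hreg : IsWeaklyRegular R rs)
    (p : PrimeSpectrum R) (hp : p.asIdeal ∈ minimalPrimes R) :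
    (rs.length : ℕ∞) ≤ Order.coheight p := by
  apply length_le_coheight_of_ass rs R hmem hreg p
  apply Module.associatedPrimes.minimalPrimes_annihilator_subset_associatedPrimes
  have : Module.annihilator R R = ⊥ := by
    simp [Module.annihilator_eq_bot]
    infer_instance
  rw [this]
  exact hp

omit [IsLocalRing R] in
theorem exists_regular_mem (M : Type u) [AddCommGroup M] [Module R M] [Module.Finite R M]
    (I : Ideal R) (h : ∀ p ∈ associatedPrimes R M, ¬ I ≤ p) :
    ∃ a ∈ I, IsSMulRegular M a := by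
  by_contra hcon
  push Not at hcon
  have hsub : (I : Set R) ⊆ ⋃ p ∈ associatedPrimes R M, (p : Set R) := by
    rw [biUnion_associatedPrimes_eq_compl_regular]
    intro a ha
    exact hcon a ha
  have := (Ideal.subset_union_prime_finite (associatedPrimes.finite R M) (f := id) I I
    (fun i hi _ _ => hi.1)).1 hsub
  obtain ⟨p, hp, hle⟩ := this
  exact h p hp hle

/-- depth drops by at most one modulo a regular element -/
theorem exists_regular_quot (rs : List R) (hmem : ∀ r ∈ rs, r ∈ maximalIdeal R)
    (hreg : IsRegular R rs) (a : R) (ha : a ∈ maximalIdeal R) (hreg' : IsSMulRegular R a) :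
    ∃ rs' : List R, rs'.length = rs.length - 1 ∧ (∀ r ∈ rs', r ∈ maximalIdeal R) ∧
      IsRegular (QuotSMulTop a R) rs' := by
  let M : ModuleCat.{u} R := ModuleCat.of R R
  let N : ModuleCat.{u} R := ModuleCat.of R (R ⧸ maximalIdeal R)
  have hsupp : Module.support R N = PrimeSpectrum.zeroLocus (maximalIdeal R) := by
    rw [Module.support_eq_zeroLocus]
    change PrimeSpectrum.zeroLocus (Module.annihilator R (R ⧸ maximalIdeal R) : Set R) = _
    rw [Ideal.annihilator_quotient]
  have hlt : maximalIdeal R • (⊤ : Submodule R M) < ⊤ := by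
    change maximalIdeal R • (⊤ : Submodule R R) < ⊤
    rw [Ideal.smul_eq_mul, Ideal.mul_top]
    exact (maximalIdeal.isMaximal R).ne_top.lt_top
  have h_ext := ModuleCat.subsingleton_ext_of_exists_isRegular (maximalIdeal R) N hsupp.subset M
    hlt rs hmem hreg
  have hx : IsSMulRegular M a := hreg'
  have h_ext' : ∀ i < rs.length - 1,
      Subsingleton (Ext N (ModuleCat.of R (QuotSMulTop a M)) i) := by
    intro i hi
    have zero1 := AddCommGrpCat.isZero_of_iff_subsingleton.mpr (h_ext i (by omega))
    have zero2 := AddCommGrpCat.isZero_of_iff_subsingleton.mpr (h_ext (i + 1) (by omega))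
    exact AddCommGrpCat.subsingleton_of_isZero <| ShortComplex.Exact.isZero_of_both_zeros
      ((Ext.covariant_sequence_exact₃' N hx.smulShortComplex_shortExact) i (i + 1) rfl)
      (zero1.eq_zero_of_src _) (zero2.eq_zero_of_tgt _)
  have hlt' : maximalIdeal R • (⊤ : Submodule R (ModuleCat.of R (QuotSMulTop a M))) < ⊤ := by
    have hnt : Nontrivial (QuotSMulTop a R) := nontrivial_quotSMulTop_of_mem_maximalIdeal R ha
    refine lt_top_iff_ne_top.2 ?_
    intro h
    have := Submodule.eq_bot_of_le_smul_of_le_jacobson_bot (maximalIdeal R)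
      (⊤ : Submodule R (QuotSMulTop a R)) (IsNoetherian.noetherian _) h.ge
      (maximalIdeal_le_jacobson _)
    exact top_ne_bot this
  exact ModuleCat.exists_isRegular_of_exists_subsingleton_ext (maximalIdeal R) _
    (ModuleCat.of R (QuotSMulTop a M)) hlt' N hsupp h_ext'

/-- an ideal of codimension at least two contains a regular sequence of length two -/
theorem exists_two_regular (rs : List R) (hmem : ∀ r ∈ rs, r ∈ maximalIdeal R)
    (hreg : IsRegular R rs) (I : Ideal R) (hI : I ≠ ⊤)
    (hdim : ∀ p : PrimeSpectrum R, I ≤ p.asIdeal → Order.coheight p + 2 ≤ rs.length) :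
    ∃ a ∈ I, ∃ b ∈ I, IsWeaklyRegular R [a, b] := by
  obtain ⟨a, haI, ha⟩ := exists_regular_mem R I (by
    intro p hp hle
    have h1 := length_le_coheight_of_ass rs R hmem hreg.1 ⟨p, hp.1⟩ hp
    have h2 := hdim ⟨p, hp.1⟩ hle
    have h3 : (rs.length : ℕ∞) + 2 ≤ rs.length := le_trans (by gcongr) h2
    norm_cast at h3
    omega)
  have ham : a ∈ maximalIdeal R := le_maximalIdeal hI haI
  obtain ⟨rs', hlen, hmem', hreg'⟩ := exists_regular_quot rs hmem hreg a ham ha
  obtain ⟨b, hbI, hb⟩ := exists_regular_mem (QuotSMulTop a R) I (by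
    intro p hp hle
    have h1 := length_le_coheight_of_ass rs' _ hmem' hreg'.1 ⟨p, hp.1⟩ hp
    have h2 := hdim ⟨p, hp.1⟩ hle
    have h3 : (rs'.length : ℕ∞) + 2 ≤ rs.length := le_trans (by gcongr) h2
    norm_cast at h3
    omega)
  refine ⟨a, haI, b, hbI, ?_⟩
  rw [isWeaklyRegular_cons_iff, isWeaklyRegular_singleton_iff]
  exact ⟨ha, hb⟩

end A1

/-- Hartshorne's elementary lemma -/
theorem eq_bot_or_eq_bot {L : Type u} [CommRing L] [IsLocalRing L] (I J : Ideal L)
    (hIJ : I * J = ⊥) (a b : L) (ha : a ∈ I ⊔ J) (hb : b ∈ I ⊔ J)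
    (hreg : IsWeaklyRegular L [a, b]) : I = ⊥ ∨ J = ⊥ := by
  rw [isWeaklyRegular_cons_iff, isWeaklyRegular_singleton_iff] at hreg
  obtain ⟨hra, hrb⟩ := hreg
  obtain ⟨a₁, ha₁, a₂, ha₂, rfl⟩ := Submodule.mem_sup.1 ha
  obtain ⟨b₁, hb₁, b₂, hb₂, rfl⟩ := Submodule.mem_sup.1 hb
  have hz : ∀ x ∈ I, ∀ y ∈ J, x * y = 0 := by
    intro x hx y hy
    have := Ideal.mul_mem_mul hx hy
    rw [hIJ] at this
    simpa using this
  have h1 : (b₁ + b₂) • a₁ ∈ (a₁ + a₂) • (⊤ : Submodule L L) := by
    have : (b₁ + b₂) • a₁ = (a₁ + a₂) • b₁ := by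
      simp only [smul_eq_mul]
      have e1 := hz a₁ ha₁ b₂ hb₂
      have e2 := hz b₁ hb₁ a₂ ha₂
      linear_combination e1 - e2
    rw [this]
    exact Submodule.smul_mem_pointwise_smul _ _ _ Submodule.mem_top
  have h2 : a₁ ∈ (a₁ + a₂) • (⊤ : Submodule L L) :=
    mem_of_isSMulRegular_quotient_of_smul_mem hrb h1
  obtain ⟨e, -, he⟩ := (Submodule.mem_smul_pointwise_iff_exists _ _ _).mp h2
  simp only [smul_eq_mul] at he
  have hreg : ∀ w : L, (a₁ + a₂) * w = 0 → w = 0 := fun w hw => hra.right_eq_zero_of_smul hw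
  have h3 : e * (1 - e) = 0 := by
    apply hreg
    apply hreg
    have e1 := hz a₁ ha₁ a₂ ha₂
    have : (a₁ + a₂) * ((a₁ + a₂) * (e * (1 - e))) =
        ((a₁ + a₂) * e) * ((a₁ + a₂) - (a₁ + a₂) * e) := by ring
    rw [this, he]
    linear_combination e1
  rcases IsLocalRing.isUnit_or_isUnit_one_sub_self e with hu | hu
  · right
    have h4 : 1 - e = 0 := (hu.mul_right_eq_zero).1 h3
    have h5 : a₂ = 0 := by
      have : e = 1 := by linear_combination -h4
      rw [this] at he
      linear_combination he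
    rw [eq_bot_iff]
    intro y hy
    have := hz a₁ ha₁ y hy
    rw [Ideal.mem_bot]
    apply hreg
    rw [h5]
    simpa using this
  · left
    have h4 : e = 0 := (hu.mul_left_eq_zero).1 h3
    have h5 : a₁ = 0 := by
      rw [h4] at he
      simpa using he.symm
    rw [eq_bot_iff]
    intro x hx
    have := hz x hx a₂ ha₂
    rw [Ideal.mem_bot]
    apply hreg
    rw [h5]
    linear_combination this

/-- connectedness in codimension one below a prime `Q` -/
theorem connectedness {R : Type u} [CommRing R] [IsNoetherianRing R] [IsLocalRing R]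
    (rs : List R) (hmem : ∀ r ∈ rs, r ∈ maximalIdeal R)
    (hreg : IsRegular R rs) (I J : Ideal R) (Q : Ideal R) [hQ : Q.IsPrime]
    (hI : I ≠ ⊤) (hJ : J ≠ ⊤)
    (hdim : ∀ p : PrimeSpectrum R, I ≤ p.asIdeal → J ≤ p.asIdeal →
      Order.coheight p + 2 ≤ rs.length)
    (hcov : ∀ p : Ideal R, p.IsPrime → p ≤ Q → I ≤ p ∨ J ≤ p) :
    (∀ p : Ideal R, p.IsPrime → p ≤ Q → I ≤ p) ∨ (∀ p : Ideal R, p.IsPrime → p ≤ Q → J ≤ p) := by
  let L := Localization.AtPrime Q
  let f := algebraMap R L
  have hnil : (I.map f) * (J.map f) ≤ nilradical L := by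
    rw [nilradical_eq_sInf]
    apply le_sInf
    intro q hq
    have hq' : q.IsPrime := hq
    have hle : q.comap f ≤ Q := by
      intro r hr
      by_contra hrQ
      have hu : IsUnit (f r) := IsLocalization.map_units L (⟨r, hrQ⟩ : Q.primeCompl)
      exact hq'.ne_top (Ideal.eq_top_of_isUnit_mem _ hr hu)
    rcases hcov (q.comap f) inferInstance hle with h | h
    · exact le_trans Ideal.mul_le_left (Ideal.map_le_iff_le_comap.2 h)
    · exact le_trans Ideal.mul_le_right (Ideal.map_le_iff_le_comap.2 h)
  obtain ⟨k, hk⟩ := IsNoetherianRing.isNilpotent_nilradical L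
  have hk' : (I.map f) ^ (k + 1) * (J.map f) ^ (k + 1) = ⊥ := by
    rw [← mul_pow, eq_bot_iff]
    refine le_trans (Ideal.pow_right_mono hnil _) ?_
    rw [pow_succ, hk]
    simp
  have hne : I ^ (k + 1) ⊔ J ^ (k + 1) ≠ ⊤ := by
    refine ne_top_of_le_ne_top (maximalIdeal.isMaximal R).ne_top (sup_le ?_ ?_)
    · exact le_trans (Ideal.pow_le_self (by omega)) (le_maximalIdeal hI)
    · exact le_trans (Ideal.pow_le_self (by omega)) (le_maximalIdeal hJ)
  obtain ⟨a, ha, b, hb, hab⟩ := exists_two_regular rs hmem hreg _ hne (by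
    intro p hp
    apply hdim p
    · exact Ideal.IsPrime.le_of_pow_le (le_trans le_sup_left hp)
    · exact Ideal.IsPrime.le_of_pow_le (le_trans le_sup_right hp))
  have hab' : IsWeaklyRegular L ([a, b].map f) :=
    IsWeaklyRegular.of_isLocalization L Q.primeCompl hab
  have hmap : ∀ c ∈ I ^ (k + 1) ⊔ J ^ (k + 1),
      f c ∈ (I.map f) ^ (k + 1) ⊔ (J.map f) ^ (k + 1) := by
    intro c hc
    rw [← Ideal.map_pow, ← Ideal.map_pow, ← Ideal.map_sup]
    exact Ideal.mem_map_of_mem f hc
  have key : ∀ K : Ideal R, (K.map f) ^ (k + 1) = ⊥ →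
      ∀ p : Ideal R, p.IsPrime → p ≤ Q → K ≤ p := by
    intro K hK p hp hpQ
    apply Ideal.IsPrime.le_of_pow_le (n := k + 1)
    intro r hr
    have h1 : f r = 0 := by
      have := Ideal.mem_map_of_mem f hr
      rw [Ideal.map_pow, hK] at this
      simpa using this
    obtain ⟨⟨s, hs⟩, hs'⟩ := (IsLocalization.map_eq_zero_iff Q.primeCompl L r).1 h1
    have h2 : s * r ∈ p := by
      simp only at hs'
      rw [hs']
      exact p.zero_mem
    rcases hp.mem_or_mem h2 with h | h
    · exact absurd (hpQ h) hs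
    · exact h
  rcases eq_bot_or_eq_bot _ _ hk' (f a) (f b) (hmap a ha) (hmap b hb) hab' with h | h
  · exact Or.inl (key I h)
  · exact Or.inr (key J h)

/-- upper bound for the dimension of a quotient through a system of parameters -/
theorem coheight_le_card {R : Type u} [CommRing R] [IsNoetherianRing R] [IsLocalRing R]
    (p : PrimeSpectrum R) (s : Finset R) (hs : ∀ r ∈ s, r ∈ maximalIdeal R)
    (h : ∀ q : Ideal R, q.IsPrime → p.asIdeal ≤ q → (∀ r ∈ s, r ∈ q) → maximalIdeal R ≤ q) :
    Order.coheight p ≤ s.card := by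
  classical
  let f := Ideal.Quotient.mk p.asIdeal
  have hf : Function.Surjective f := Ideal.Quotient.mk_surjective
  have hloc : IsLocalRing (R ⧸ p.asIdeal) := IsLocalRing.of_surjective' f hf
  have hcomap : ∀ q : Ideal (R ⧸ p.asIdeal), p.asIdeal ≤ q.comap f := by
    intro q r hr
    have : f r = 0 := Ideal.Quotient.eq_zero_iff_mem.2 hr
    simp [this]
  have hmax : (maximalIdeal (R ⧸ p.asIdeal)).comap f = maximalIdeal R :=
    eq_maximalIdeal (Ideal.comap_isMaximal_of_surjective f hf)
  have hmin : maximalIdeal (R ⧸ p.asIdeal) ∈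
      (Ideal.span ((s.image f : Finset _) : Set (R ⧸ p.asIdeal))).minimalPrimes := by
    refine ⟨⟨inferInstance, ?_⟩, ?_⟩
    · rw [Ideal.span_le]
      intro y hy
      simp only [Finset.coe_image, Set.mem_image, Finset.mem_coe] at hy
      obtain ⟨r, hr, rfl⟩ := hy
      have := hs r hr
      rw [← hmax] at this
      exact this
    · rintro q ⟨hq, hq'⟩ -
      have h1 := h (q.comap f) inferInstance (hcomap q) (by
        intro r hr
        apply hq'
        apply Ideal.subset_span
        simp only [Finset.coe_image, Set.mem_image, Finset.mem_coe]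
        exact ⟨r, hr, rfl⟩)
      intro y hy
      obtain ⟨r, rfl⟩ := hf y
      apply h1
      rw [← hmax]
      exact hy
  have h1 := Ideal.height_le_card_of_mem_minimalPrimes_span_finset hmin
  have h2 : ((maximalIdeal (R ⧸ p.asIdeal)).height : WithBot ℕ∞) = ringKrullDim (R ⧸ p.asIdeal) :=
    IsLocalRing.maximalIdeal_height_eq_ringKrullDim
  have h3 : (Order.coheight p : WithBot ℕ∞) = ringKrullDim (R ⧸ p.asIdeal) := by
    rw [Order.coheight_eq_krullDim_Ici, ringKrullDim_quotient]
    rfl
  have h4 : Order.coheight p = (maximalIdeal (R ⧸ p.asIdeal)).height := by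
    exact_mod_cast h3.trans h2.symm
  rw [h4]
  refine le_trans h1 ?_
  exact_mod_cast Finset.card_image_le

end Pool.Agent.P.MP_e66ac9_al
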