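import Pool.Agent.P.MP_e66ac9_al.Comp
import Pool.Agent.P.MP_e66ac9_al.Alg

set_option autoImplicit false

namespace Pool.Agent.P.MP_e66ac9_al

open Finset IsLocalRing RingTheory.Sequence

universe u

variable {V : Type} [Fintype V] [LinearOrder V] (G : SimpleGraph V)

/-- a labelling constant along the edges outside `Z` -/
def Compat (Z : Finset V) (l : V → V) : Prop :=
  ∀ i j, G.Adj i j → i ∉ Z → j ∉ Z → l i = l j

/-- abstract properties of the local ring of the binomial edge ideal at the origin -/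
structure Model (R : Type u) [CommRing R] [IsLocalRing R] (x y : V → R)
    (P : Finset V → (V → V) → Finset V → Ideal R) : Prop where
  edge : ∀ i j, G.Adj i j → x i * y j - x j * y i = 0
  xm : ∀ i, x i ∈ maximalIdeal R
  ym : ∀ i, y i ∈ maximalIdeal R
  max : ∀ q : Ideal R, (∀ i, x i ∈ q) → (∀ i, y i ∈ q) → maximalIdeal R ≤ q
  prime : ∀ Z l F, Compat G Z l → (P Z l F).IsPrime
  hx : ∀ Z l F i, Compat G Z l → (x i ∈ P Z l F ↔ i ∈ Z)
  hy : ∀ Z l F i, Compat G Z l → (y i ∈ P Z l F ↔ i ∈ Z ∨ l i ∈ F)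
  hdet : ∀ Z l i j, Compat G Z l → i ∉ Z → j ∉ Z → l i ≠ l j → x i * y j - x j * y i ∉ P Z l ∅
  mono : ∀ Z l F Z' F', Z ⊆ Z' → F ⊆ F' → P Z l F ≤ P Z' l F'
  const : ∀ Z l v, P Z l ∅ ≤ P Z (fun _ => v) ∅

variable {G}

omit [Fintype V] [LinearOrder V] in
theorem Compat.mono {Z Z' : Finset V} {l : V → V} (h : Compat G Z l) (hZ : Z ⊆ Z') :
    Compat G Z' l := fun i j hij hi hj => h i j hij (fun h => hi (hZ h)) (fun h => hj (hZ h))

theorem exists_label (Z : Finset V) : ∃ (T : Finset V) (l : V → V),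
    T.card = cc G (univ \ Z) ∧ (∀ i, i ∉ Z → l i ∈ T) ∧ (∀ t ∈ T, ∃ i, i ∉ Z ∧ l i = t) ∧
    (∀ i j, i ∉ Z → j ∉ Z → (l i = l j ↔ Reach G (univ \ Z) i j)) ∧ Compat G Z l := by
  obtain ⟨T, hT, hc, hcov⟩ := exists_cc (G := G) (univ \ Z)
  choose! l hl using hcov
  have hm : ∀ i, i ∉ Z → i ∈ univ \ Z := fun i hi => by simp [hi]
  have hiff : ∀ i j, i ∉ Z → j ∉ Z → (l i = l j ↔ Reach G (univ \ Z) i j) := by
    intro i j hi hj
    constructor
    · intro h
      have h1 := (hl i (hm i hi)).2
      rw [h] at h1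
      exact h1.symm.trans (hl j (hm j hj)).2
    · intro h
      exact hT.2 _ (hl i (hm i hi)).1 _ (hl j (hm j hj)).1
        (((hl i (hm i hi)).2.trans h).trans (hl j (hm j hj)).2.symm)
  refine ⟨T, l, hc, fun i hi => (hl i (hm i hi)).1, ?_, hiff, ?_⟩
  · intro t ht
    have ht' := hT.1 ht
    exact ⟨t, (mem_sdiff.1 ht').2, hT.2 _ (hl t ht').1 _ ht (hl t ht').2⟩
  · intro i j hij hi hj
    exact (hiff i j hi hj).2 (Reach.step (hm i hi) (hm j hj) hij)

variable {R : Type u} [CommRing R] [IsLocalRing R] {x y : V → R}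
  {P : Finset V → (V → V) → Finset V → Ideal R}

theorem Model.upper [IsNoetherianRing R] (h : Model G R x y P) (p : PrimeSpectrum R)
    (Z T : Finset V) (l : V → V) (hZ : ∀ i ∈ Z, x i ∈ p.asIdeal ∧ y i ∈ p.asIdeal)
    (hdet : ∀ i j, i ∉ Z → j ∉ Z → l i = l j → x i * y j - x j * y i ∈ p.asIdeal)
    (hT : ∀ i, i ∉ Z → l i ∈ T) :
    Order.coheight p ≤ ((univ \ Z).card + T.card : ℕ) := by
  classical
  let θ : V → R := fun i => x i - ∑ j ∈ (univ \ Z).filter (fun j => j < i ∧ l j = l i), y j
  let η : V → R := fun t => ∑ j ∈ (univ \ Z).filter (fun j => l j = t), y j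
  have h1 := coheight_le_card p ((univ \ Z).image θ ∪ T.image η) (by
    intro r hr
    simp only [mem_union, mem_image] at hr
    rcases hr with ⟨i, -, rfl⟩ | ⟨t, -, rfl⟩
    · exact Ideal.sub_mem _ (h.xm i) (Ideal.sum_mem _ (fun j _ => h.ym j))
    · exact Ideal.sum_mem _ (fun j _ => h.ym j)) (by
    intro q hq hpq hs
    have hθ : ∀ i, i ∉ Z → θ i ∈ q := fun i hi =>
      hs _ (mem_union_left _ (mem_image_of_mem _ (by simp [hi])))
    have hη : ∀ t ∈ T, η t ∈ q := fun t ht => hs _ (mem_union_right _ (mem_image_of_mem _ ht))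
    have hxq : ∀ i, x i ∈ q := by
      intro i
      induction i using WellFoundedLT.induction with
      | ind i ih =>
        by_cases hi : i ∈ Z
        · exact hpq (hZ i hi).1
        · by_contra hxi
          apply hxi
          have : x i = θ i + ∑ j ∈ (univ \ Z).filter (fun j => j < i ∧ l j = l i), y j := by
            simp [θ]
          rw [this]
          refine Ideal.add_mem _ (hθ i hi) (Ideal.sum_mem _ ?_)
          intro j hj
          simp only [mem_filter, mem_sdiff, mem_univ, true_and] at hj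
          have h2 := hpq (hdet i j hi hj.1 hj.2.2.symm)
          have h3 : x i * y j ∈ q := by
            have := Ideal.add_mem _ h2 (Ideal.mul_mem_right (y i) _ (ih j hj.2.1))
            simpa using this
          exact (hq.mem_or_mem h3).resolve_left hxi
    have hyq : ∀ i, y i ∈ q := by
      intro i
      induction i using WellFoundedGT.induction with
      | ind i ih =>
        by_cases hi : i ∈ Z
        · exact hpq (hZ i hi).2
        · have e1 : η (l i) = ∑ j ∈ (univ \ Z).filter (fun j => j < i ∧ l j = l i), y j + y i +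
              ∑ j ∈ (univ \ Z).filter (fun j => i < j ∧ l j = l i), y j := by
            have e2 : (univ \ Z).filter (fun j => l j = l i) =
                ((univ \ Z).filter (fun j => j < i ∧ l j = l i) ∪ {i}) ∪
                  (univ \ Z).filter (fun j => i < j ∧ l j = l i) := by
              ext j
              simp only [mem_filter, mem_sdiff, mem_univ, true_and, mem_union, mem_singleton]
              constructor
              · rintro ⟨h1, h2⟩
                rcases lt_trichotomy j i with h3 | h3 | h3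
                · exact Or.inl (Or.inl ⟨h1, h3, h2⟩)
                · exact Or.inl (Or.inr h3)
                · exact Or.inr ⟨h1, h3, h2⟩
              · rintro ((⟨h1, -, h2⟩ | rfl) | ⟨h1, -, h2⟩)
                · exact ⟨h1, h2⟩
                · exact ⟨hi, rfl⟩
                · exact ⟨h1, h2⟩
            simp only [η]
            rw [e2, sum_union, sum_union, sum_singleton]
            · simp
            · rw [Finset.disjoint_left]
              intro j hj hj'
              simp only [mem_filter, mem_union, mem_singleton] at hj hj'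
              rcases hj with hj | rfl
              · exact lt_asymm hj.2.1 hj'.2.1
              · exact lt_irrefl _ hj'.2.1
          have e3 : y i = η (l i) - (x i - θ i) -
              ∑ j ∈ (univ \ Z).filter (fun j => i < j ∧ l j = l i), y j := by
            rw [e1]
            simp only [θ]
            ring
          rw [e3]
          refine Ideal.sub_mem _ (Ideal.sub_mem _ (hη _ (hT i hi))
            (Ideal.sub_mem _ (hxq i) (hθ i hi))) (Ideal.sum_mem _ ?_)
          intro j hj
          exact ih j (mem_filter.1 hj).2.1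
    exact h.max q hxq hyq)
  refine le_trans h1 ?_
  norm_cast
  exact (card_union_le _ _).trans (add_le_add card_image_le card_image_le)

theorem Model.lower1 (h : Model G R x y P) (l : V → V) (k : ℕ) :
    ∀ (Z : Finset V) (hc : Compat G Z l), (univ \ Z).card = k →
      (k : ℕ∞) ≤ Order.coheight (⟨P Z l univ, h.prime Z l univ hc⟩ : PrimeSpectrum R) := by
  induction k with
  | zero => intros; simp
  | succ k ih =>
    intro Z hc hk
    obtain ⟨i, hi⟩ : (univ \ Z).Nonempty := card_pos.1 (by omega)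
    have hiZ : i ∉ Z := (mem_sdiff.1 hi).2
    have hc' : Compat G (insert i Z) l := hc.mono (subset_insert _ _)
    have h1 := ih (insert i Z) hc' (by
      rw [sdiff_insert, card_erase_of_mem hi, hk]
      simp)
    have hlt : (⟨P Z l univ, h.prime Z l univ hc⟩ : PrimeSpectrum R) <
        ⟨P (insert i Z) l univ, h.prime _ l univ hc'⟩ := by
      refine lt_of_le_of_ne (h.mono Z l univ _ _ (subset_insert _ _) (Subset.refl _)) ?_
      intro he
      have he' : P Z l univ = P (insert i Z) l univ := congrArg PrimeSpectrum.asIdeal he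
      have := (h.hx _ l univ i hc').2 (mem_insert_self _ _)
      rw [← he'] at this
      exact hiZ ((h.hx _ l univ i hc).1 this)
    calc ((k + 1 : ℕ) : ℕ∞) = k + 1 := by simp
      _ ≤ _ := by gcongr
      _ ≤ _ := Order.coheight_add_one_le hlt

theorem Model.lower2 (h : Model G R x y P) (l : V → V) (Z T : Finset V) (hc : Compat G Z l)
    (hT : ∀ t ∈ T, ∃ i, i ∉ Z ∧ l i = t) (k : ℕ) :
    ∀ F : Finset V, (T \ F).card = k → (((univ \ Z).card + k : ℕ) : ℕ∞) ≤
      Order.coheight (⟨P Z l F, h.prime Z l F hc⟩ : PrimeSpectrum R) := by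
  induction k with
  | zero =>
    intro F _
    refine le_trans (by simpa using h.lower1 l _ Z hc rfl) (Order.coheight_anti ?_)
    exact h.mono Z l F Z univ (Subset.refl _) (subset_univ _)
  | succ k ih =>
    intro F hk
    obtain ⟨t, ht⟩ : (T \ F).Nonempty := card_pos.1 (by omega)
    obtain ⟨i, hi, hit⟩ := hT t (mem_sdiff.1 ht).1
    have h1 := ih (insert t F) (by
      rw [sdiff_insert, card_erase_of_mem ht, hk]
      simp)
    have hlt : (⟨P Z l F, h.prime Z l F hc⟩ : PrimeSpectrum R) <
        ⟨P Z l (insert t F), h.prime _ l _ hc⟩ := by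
      refine lt_of_le_of_ne (h.mono Z l F _ _ (Subset.refl _) (subset_insert _ _)) ?_
      intro he
      have he' : P Z l F = P Z l (insert t F) := congrArg PrimeSpectrum.asIdeal he
      have := (h.hy Z l (insert t F) i hc).2 (Or.inr (hit ▸ mem_insert_self _ _))
      rw [← he'] at this
      rcases (h.hy Z l F i hc).1 this with h2 | h2
      · exact hi h2
      · exact (mem_sdiff.1 ht).2 (hit ▸ h2)
    calc (((univ \ Z).card + (k + 1) : ℕ) : ℕ∞) = ((univ \ Z).card + k : ℕ) + 1 := by
          push_cast; ring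
      _ ≤ _ := by gcongr
      _ ≤ _ := Order.coheight_add_one_le hlt

theorem Model.det_of_reach (h : Model G R x y P) (p : Ideal R) (hp : p.IsPrime) {B : Finset V}
    (hB : ∀ i ∈ B, ¬ (x i ∈ p ∧ y i ∈ p)) {i j : V} (hr : Reach G B i j) :
    x i * y j - x j * y i ∈ p := by
  refine hr.closed (fun j => x i * y j - x j * y i ∈ p) (by simp) ?_
  intro a ha b _ hab h1
  have h2 := h.edge a b hab
  by_contra hcon
  apply hB a ha
  constructor
  · have : x a * (x i * y b - x b * y i) ∈ p := by
      have e : x a * (x i * y b - x b * y i) = x b * (x i * y a - x a * y i) := by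
        linear_combination x i * h2
      rw [e]
      exact Ideal.mul_mem_left _ _ h1
    exact (hp.mem_or_mem this).resolve_right hcon
  · have : y a * (x i * y b - x b * y i) ∈ p := by
      have e : y a * (x i * y b - x b * y i) = y b * (x i * y a - x a * y i) := by
        linear_combination y i * h2
      rw [e]
      exact Ideal.mul_mem_left _ _ h1
    exact (hp.mem_or_mem this).resolve_right hcon

theorem Model.unm_acc [IsNoetherianRing R] (h : Model G R x y P) (rs : List R)
    (hmem : ∀ r ∈ rs, r ∈ maximalIdeal R) (hreg : IsRegular R rs)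
    (hdim : (rs.length : WithBot ℕ∞) = ringKrullDim R) :
    (∀ S, Cut G univ S → cc G (univ \ S) = S.card + cc G univ) ∧
      ∀ S, Cut G univ S → S.Nonempty → ∃ s ∈ S, Cut G univ (S.erase s) := by
  classical
  have hle : ∀ p : PrimeSpectrum R, Order.coheight p ≤ rs.length := by
    intro p
    have := Order.coheight_le_krullDim p
    rw [← ringKrullDim, ← hdim] at this
    exact_mod_cast this
  have ha : ∀ S : Finset V, (univ \ S).card + cc G (univ \ S) ≤ rs.length := by
    intro S
    obtain ⟨T, l, hc, -, h2, -, h4⟩ := exists_label (G := G) S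
    have := (h.lower2 l S T h4 h2 _ ∅ rfl).trans (hle _)
    rw [sdiff_empty, hc] at this
    exact_mod_cast this
  let z : Ideal R → Finset V := fun p => univ.filter (fun i => x i ∈ p ∧ y i ∈ p)
  have hz : ∀ p i, i ∈ z p ↔ x i ∈ p ∧ y i ∈ p := by
    intro p i
    simp [z]
  have hzr : ∀ p : Ideal R, p.IsPrime → ∀ i j, Reach G (univ \ z p) i j →
      x i * y j - x j * y i ∈ p := by
    intro p hp i j hr
    exact h.det_of_reach p hp (fun i hi h2 => (mem_sdiff.1 hi).2 ((hz p i).2 h2)) hr
  have hb : ∀ p ∈ minimalPrimes R, rs.length ≤ (univ \ z p).card + cc G (univ \ z p) := by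
    intro p hp
    have hp' : p.IsPrime := hp.1.1
    obtain ⟨T, l, hc, h1, -, h3, -⟩ := exists_label (G := G) (z p)
    have h5 := h.upper ⟨p, hp'⟩ (z p) T l (fun i hi => (hz p i).1 hi)
      (fun i j hi hj hl => hzr p hp' i j ((h3 i j hi hj).1 hl)) h1
    have := (length_le_coheight_of_minimal rs hmem hreg.1 ⟨p, hp'⟩ hp).trans h5
    rw [hc] at this
    exact_mod_cast this
  have hsepdet : ∀ S T : Finset V, Cut G univ T → ∀ s ∈ T, s ∉ S → S ⊆ T → ∀ l : V → V,
      Compat G T l → (∀ i j, i ∉ T → j ∉ T → (l i = l j ↔ Reach G (univ \ T) i j)) →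
      ∃ i j, Reach G (univ \ S) i j ∧ i ∉ S ∧ j ∉ S ∧ x i * y j - x j * y i ∉ P T l ∅ := by
    intro S T hT s hs hsS hST l hc h3
    obtain ⟨i, hi, j, hj, hsi, hsj, hij⟩ := hT.2 s hs
    have hi' := (mem_sdiff.1 hi).2
    have hj' := (mem_sdiff.1 hj).2
    have hiS : i ∉ S := fun h => hi' (hST h)
    have hjS : j ∉ S := fun h => hj' (hST h)
    refine ⟨i, j, ?_, hiS, hjS, h.hdet T l i j hc hi' hj' (fun he => hij ((h3 i j hi' hj').1 he))⟩
    exact (Reach.step (by simp [hiS]) (by simp [hsS]) hsi.symm).trans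
      (Reach.step (by simp [hsS]) (by simp [hjS]) hsj)
  have hc : ∀ S, Cut G univ S → rs.length ≤ (univ \ S).card + cc G (univ \ S) := by
    intro S hS
    obtain ⟨T, l, -, -, -, h3, h4⟩ := exists_label (G := G) S
    have := h.prime S l ∅ h4
    obtain ⟨p, hp, hpP⟩ := Ideal.exists_minimalPrimes_le (I := ⊥) (J := P S l ∅) bot_le
    have hsub : z p ⊆ S := fun i hi => (h.hx S l ∅ i h4).1 (hpP ((hz p i).1 hi).1)
    have heq : z p = S := by
      refine Subset.antisymm hsub ?_
      intro s hs
      by_contra hsz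
      obtain ⟨i, j, hr, -, -, hd⟩ := hsepdet (z p) S hS s hs hsz hsub l h4 h3
      exact hd (hpP (hzr p hp.1.1 i j hr))
    have := hb p hp
    rwa [heq] at this
  have hcard : ∀ S : Finset V, (univ \ S).card + S.card = (univ : Finset V).card := fun S =>
    card_sdiff_add_card_eq_card (subset_univ S)
  have h0 : (univ : Finset V).card + cc G univ = rs.length := by
    have h1 := ha ∅
    have h2 := hc ∅ (cut_empty _)
    rw [sdiff_empty] at h1 h2
    omega
  have hunm : ∀ S, Cut G univ S → cc G (univ \ S) = S.card + cc G univ := by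
    intro S hS
    have h1 := ha S
    have h2 := hc S hS
    have h3 := hcard S
    omega
  refine ⟨hunm, ?_⟩
  intro T hT hne
  by_contra hcon
  push Not at hcon
  obtain ⟨v, hv⟩ := hne
  have hcv : ∀ Z : Finset V, Compat G Z (fun _ => v) := fun Z i j _ _ _ => rfl
  let I : Ideal R := Ideal.span {r | ∃ i ∈ T, r = x i ∨ r = y i}
  let IS : Finset V → Ideal R := fun S => Ideal.span {r | (∃ i ∈ S, r = x i ∨ r = y i) ∨
    ∃ i j, Reach G (univ \ S) i j ∧ r = x i * y j - x j * y i}
  let 𝒮 : Finset (Finset V) := T.powerset.filter (fun S => S ≠ T ∧ Cut G univ S)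
  have h𝒮 : ∀ S, S ∈ 𝒮 ↔ S ⊆ T ∧ S ≠ T ∧ Cut G univ S := by
    intro S
    simp [𝒮]
  let J : Ideal R := 𝒮.inf IS
  have hI : ∀ p : Ideal R, I ≤ p ↔ ∀ i ∈ T, x i ∈ p ∧ y i ∈ p := by
    intro p
    rw [Ideal.span_le]
    constructor
    · intro h1 i hi
      exact ⟨h1 ⟨i, hi, Or.inl rfl⟩, h1 ⟨i, hi, Or.inr rfl⟩⟩
    · rintro h1 r ⟨i, hi, rfl | rfl⟩
      · exact (h1 i hi).1
      · exact (h1 i hi).2
  have hIS : ∀ (S : Finset V) (p : Ideal R), IS S ≤ p ↔ (∀ i ∈ S, x i ∈ p ∧ y i ∈ p) ∧
      ∀ i j, Reach G (univ \ S) i j → x i * y j - x j * y i ∈ p := by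
    intro S p
    rw [Ideal.span_le]
    constructor
    · intro h1
      exact ⟨fun i hi => ⟨h1 (Or.inl ⟨i, hi, Or.inl rfl⟩), h1 (Or.inl ⟨i, hi, Or.inr rfl⟩)⟩,
        fun i j hr => h1 (Or.inr ⟨i, j, hr, rfl⟩)⟩
    · rintro ⟨h1, h2⟩ r (⟨i, hi, rfl | rfl⟩ | ⟨i, j, hr, rfl⟩)
      · exact (h1 i hi).1
      · exact (h1 i hi).2
      · exact h2 i j hr
  have hQ := h.prime T (fun _ => v) ∅ (hcv T)
  have hemp : (∅ : Finset V) ∈ 𝒮 :=
    (h𝒮 ∅).2 ⟨empty_subset _, fun he => by simp [← he] at hv, cut_empty _⟩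
  have key := connectedness rs hmem hreg I J (P T (fun _ => v) ∅)
    (ne_top_of_le_ne_top (maximalIdeal.isMaximal R).ne_top
      ((hI _).2 (fun i _ => ⟨h.xm i, h.ym i⟩)))
    (ne_top_of_le_ne_top (maximalIdeal.isMaximal R).ne_top
      ((Finset.inf_le hemp).trans ((hIS ∅ _).2 ⟨by simp, fun i j _ =>
        Ideal.sub_mem _ (Ideal.mul_mem_left _ _ (h.ym j)) (Ideal.mul_mem_left _ _ (h.ym i))⟩)))
    (by
      intro p hIp hJp
      obtain ⟨S, hS, hSp⟩ := (p.2.inf_le').1 hJp
      obtain ⟨hST, hne, hScut⟩ := (h𝒮 S).1 hS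
      obtain ⟨T', l, hc', h1, -, h3, -⟩ := exists_label (G := G) S
      have h5 := h.upper p T T' l ((hI _).1 hIp) (fun i j hi hj hl =>
        ((hIS S _).1 hSp).2 i j ((h3 i j (fun h => hi (hST h)) (fun h => hj (hST h))).1 hl))
        (fun i hi => h1 i (fun h => hi (hST h)))
      have h6 : S.card + 2 ≤ T.card := by
        have h7 : S.card < T.card := card_lt_card (lt_of_le_of_ne hST hne)
        by_contra h8
        obtain ⟨t, ht, htS⟩ := exists_of_ssubset (lt_of_le_of_ne hST hne : S ⊂ T)
        apply hcon t ht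
        have : S = T.erase t := by
          apply eq_of_subset_of_card_le
          · intro s hs
            exact mem_erase.2 ⟨fun he => htS (he ▸ hs), hST hs⟩
          · rw [card_erase_of_mem ht]
            omega
        exact this ▸ hScut
      have h9 : (univ \ T).card + T'.card + 2 ≤ rs.length := by
        have := hunm S hScut
        have := hcard T
        omega
      calc Order.coheight p + 2 ≤ (((univ \ T).card + T'.card : ℕ) : ℕ∞) + 2 := by gcongr
        _ = (((univ \ T).card + T'.card + 2 : ℕ) : ℕ∞) := by push_cast; ring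
        _ ≤ _ := by exact_mod_cast h9)
    (by
      intro p hp hpQ
      obtain ⟨p', hp', hpp⟩ := Ideal.exists_minimalPrimes_le (I := ⊥) (J := p) bot_le
      have hsub : z p' ⊆ T := fun i hi =>
        (h.hx T _ ∅ i (hcv T)).1 (hpQ (hpp ((hz p' i).1 hi).1))
      by_cases heq : z p' = T
      · left
        refine le_trans ((hI p').2 ?_) hpp
        intro i hi
        exact (hz p' i).1 (heq ▸ hi)
      · right
        have hcut : Cut G univ (z p') := by
          apply (cc_le_and_cut hunm (z p') (subset_univ _)).2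
          have := hb p' hp'
          have := hcard (z p')
          omega
        refine le_trans (Finset.inf_le ((h𝒮 _).2 ⟨hsub, heq, hcut⟩)) (le_trans ?_ hpp)
        exact (hIS _ _).2 ⟨fun i hi => (hz p' i).1 hi, hzr p' hp'.1.1⟩)
  rcases key with key | key
  · have h1 := key (P ∅ (fun _ => v) ∅) (h.prime _ _ _ (hcv ∅))
      (h.mono _ _ _ _ _ (empty_subset _) (Subset.refl _))
    have h2 := (h.hx ∅ _ ∅ v (hcv ∅)).1 ((hI _).1 h1 v hv).1
    simp at h2
  · obtain ⟨T', l, -, -, -, h3, h4⟩ := exists_label (G := G) T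
    have hp := h.prime T l ∅ h4
    have h1 := key (P T l ∅) hp (h.const T l v)
    obtain ⟨S, hS, hSp⟩ := (hp.inf_le').1 h1
    obtain ⟨hST, hne, -⟩ := (h𝒮 S).1 hS
    obtain ⟨t, ht, htS⟩ := exists_of_ssubset (lt_of_le_of_ne hST hne : S ⊂ T)
    obtain ⟨i, j, hr, -, -, hd⟩ := hsepdet S T hT t ht htS hST l h4 h3
    exact hd (((hIS S _).1 hSp).2 i j hr)

end Pool.Agent.P.MP_e66ac9_al
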