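import Mathlib

set_option autoImplicit false

namespace Pool.Agent.P.MP_e66ac9_al

open Finset

variable {V : Type*} [DecidableEq V] (G : SimpleGraph V)

/-- reachability inside the vertex set `B` -/
def Reach (B : Finset V) : V → V → Prop :=
  Relation.ReflTransGen (fun u v => u ∈ B ∧ v ∈ B ∧ G.Adj u v)

/-- a set of vertices of `B` lying in pairwise different components -/
def Indep (B T : Finset V) : Prop := T ⊆ B ∧ ∀ u ∈ T, ∀ v ∈ T, Reach G B u v → u = v

open Classical in
/-- number of connected components of the subgraph induced on `B` -/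
noncomputable def cc (B : Finset V) : ℕ := (B.powerset.filter (Indep G B)).sup Finset.card

/-- `s` has neighbours in two different components of `B` -/
def Sep (B : Finset V) (s : V) : Prop :=
  ∃ p ∈ B, ∃ q ∈ B, G.Adj s p ∧ G.Adj s q ∧ ¬ Reach G B p q

/-- cut sets of the subgraph induced on `A` -/
def Cut (A S : Finset V) : Prop := S ⊆ A ∧ ∀ s ∈ S, Sep G (A \ S) s

variable {G}

omit [DecidableEq V] in
theorem Reach.refl (B : Finset V) (u : V) : Reach G B u u := Relation.ReflTransGen.refl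

omit [DecidableEq V] in
theorem Reach.trans {B : Finset V} {u v w : V} (h1 : Reach G B u v) (h2 : Reach G B v w) :
    Reach G B u w := Relation.ReflTransGen.trans h1 h2

omit [DecidableEq V] in
theorem Reach.step {B : Finset V} {u v : V} (hu : u ∈ B) (hv : v ∈ B) (h : G.Adj u v) :
    Reach G B u v := Relation.ReflTransGen.single ⟨hu, hv, h⟩

omit [DecidableEq V] in
theorem Reach.symm {B : Finset V} {u v : V} (h : Reach G B u v) : Reach G B v u := by
  induction h with
  | refl => exact Reach.refl _ _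
  | tail _ h2 ih => exact (Reach.step h2.2.1 h2.1 h2.2.2.symm).trans ih

omit [DecidableEq V] in
theorem Reach.mono {B B' : Finset V} (hB : B ⊆ B') {u v : V} (h : Reach G B u v) :
    Reach G B' u v := by
  induction h with
  | refl => exact Reach.refl _ _
  | tail _ h2 ih => exact ih.trans (Reach.step (hB h2.1) (hB h2.2.1) h2.2.2)

omit [DecidableEq V] in
theorem Reach.closed {B : Finset V} {u v : V} (h : Reach G B u v) (P : V → Prop) (hu : P u)
    (hP : ∀ a ∈ B, ∀ b ∈ B, G.Adj a b → P a → P b) : P v := by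
  induction h with
  | refl => exact hu
  | tail _ h2 ih => exact hP _ h2.1 _ h2.2.1 h2.2.2 ih

omit [DecidableEq V] in
theorem Reach.mem {B : Finset V} {u v : V} (h : Reach G B u v) (hu : u ∈ B) : v ∈ B :=
  h.closed (fun x => x ∈ B) hu (fun _ _ _ hb _ _ => hb)

omit [DecidableEq V] in
theorem Reach.restrict {B X : Finset V} {u v : V} (h : Reach G B u v) (hu : u ∈ X)
    (hX : ∀ a ∈ X, ∀ b ∈ B, G.Adj a b → b ∈ X) : Reach G X u v :=
  (h.closed (fun x => x ∈ X ∧ Reach G X u x) ⟨hu, Reach.refl _ _⟩ (fun a _ b hb hab ha =>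
    ⟨hX a ha.1 b hb hab, ha.2.trans (Reach.step ha.1 (hX a ha.1 b hb hab) hab)⟩)).2

omit [DecidableEq V] in
theorem Reach.eq_of_isolated {B : Finset V} {u v : V} (h : Reach G B u v)
    (hu : ∀ b ∈ B, ¬ G.Adj u b) : v = u :=
  h.closed (fun x => x = u) rfl (fun _ _ b hb hab ha => absurd (ha ▸ hab) (hu b hb))

omit [DecidableEq V] in
theorem Reach.exists_adj {B : Finset V} {u v : V} (h : Reach G B u v) (huv : v ≠ u) :
    ∃ b ∈ B, G.Adj u b := by
  by_contra hcon
  push Not at hcon
  exact huv (h.eq_of_isolated hcon)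

omit [DecidableEq V] in
theorem le_cc {B T : Finset V} (h : Indep G B T) : T.card ≤ cc G B := by
  classical
  unfold cc
  apply Finset.le_sup (f := Finset.card)
  simp only [mem_filter, mem_powerset]
  exact ⟨h.1, h⟩

omit [DecidableEq V] in
theorem indep_empty (B : Finset V) : Indep G B ∅ := ⟨empty_subset _, by simp⟩

theorem Indep.insert {B T : Finset V} (h : Indep G B T) {x : V} (hx : x ∈ B)
    (hT : ∀ t ∈ T, ¬ Reach G B t x) : Indep G B (insert x T) := by
  refine ⟨insert_subset hx h.1, ?_⟩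
  intro u hu v hv huv
  rw [mem_insert] at hu hv
  rcases hu with rfl | hu <;> rcases hv with rfl | hv
  · rfl
  · exact absurd huv.symm (hT v hv)
  · exact absurd huv (hT u hu)
  · exact h.2 u hu v hv huv

theorem Indep.cover {B T : Finset V} (h : Indep G B T) (hc : cc G B ≤ T.card) :
    ∀ v ∈ B, ∃ t ∈ T, Reach G B t v := by
  intro v hv
  by_contra hcon
  push Not at hcon
  have h1 := le_cc (h.insert hv hcon)
  have hvT : v ∉ T := fun hvT => hcon v hvT (Reach.refl _ _)
  rw [card_insert_of_notMem hvT] at h1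
  omega

theorem exists_cc (B : Finset V) :
    ∃ T, Indep G B T ∧ T.card = cc G B ∧ ∀ v ∈ B, ∃ t ∈ T, Reach G B t v := by
  classical
  obtain ⟨T, hT, hc⟩ := Finset.exists_mem_eq_sup (B.powerset.filter (Indep G B))
    ⟨∅, by simp [indep_empty]⟩ Finset.card
  have hT' : Indep G B T := (mem_filter.1 hT).2
  have hc' : T.card = cc G B := by
    unfold cc
    convert hc.symm
  exact ⟨T, hT', hc', hT'.cover hc'.ge⟩

theorem cc_le_of_cover {B T : Finset V} (h : ∀ v ∈ B, ∃ t ∈ T, Reach G B t v) :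
    cc G B ≤ T.card := by
  obtain ⟨T', hT', hc, -⟩ := exists_cc (G := G) B
  rw [← hc]
  choose! f hf using h
  apply Finset.card_le_card_of_injOn f
  · intro v hv
    exact (hf v (hT'.1 hv)).1
  · intro u hu v hv huv
    apply hT'.2 u hu v hv
    have h1 := (hf u (hT'.1 hu)).2
    have h2 := (hf v (hT'.1 hv)).2
    rw [huv] at h1
    exact h1.symm.trans h2

theorem cc_le_cc_insert {B : Finset V} {s : V} (hs : s ∉ B) (h : ¬ Sep G B s) :
    cc G B ≤ cc G (insert s B) := by
  obtain ⟨T, hT, hc, -⟩ := exists_cc (G := G) B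
  rw [← hc]
  apply le_cc
  refine ⟨hT.1.trans (subset_insert _ _), ?_⟩
  intro u hu v hv huv
  apply hT.2 u hu v hv
  have hu' := hT.1 hu
  have key := huv.closed (fun x => (x ∈ B ∧ Reach G B u x) ∨
    (x = s ∧ ∃ p ∈ B, G.Adj s p ∧ Reach G B u p)) (Or.inl ⟨hu', Reach.refl _ _⟩) (by
      intro a _ b hb hab ha
      rw [mem_insert] at hb
      rcases ha with ⟨ha, hua⟩ | ⟨rfl, p, hp, hsp, hup⟩
      · rcases hb with rfl | hb
        · exact Or.inr ⟨rfl, a, ha, hab.symm, hua⟩
        · exact Or.inl ⟨hb, hua.trans (Reach.step ha hb hab)⟩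
      · rcases hb with rfl | hb
        · exact absurd hab G.irrefl
        · left
          refine ⟨hb, hup.trans ?_⟩
          by_contra hcon
          exact h ⟨p, hp, b, hb, hsp, hab, hcon⟩)
  rcases key with ⟨-, h1⟩ | ⟨h1, -⟩
  · exact h1
  · exact absurd (h1 ▸ hT.1 hv) hs

theorem cc_insert_lt {B : Finset V} {s : V} (h : Sep G B s) :
    cc G (insert s B) + 1 ≤ cc G B := by
  obtain ⟨T, hT, hc, hcov⟩ := exists_cc (G := G) B
  obtain ⟨p, hp, q, hq, hsp, hsq, hpq⟩ := h
  obtain ⟨tp, htp, hrp⟩ := hcov p hp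
  obtain ⟨tq, htq, hrq⟩ := hcov q hq
  have hne : tp ≠ tq := by
    rintro rfl
    exact hpq (hrp.symm.trans hrq)
  have hsub : B ⊆ insert s B := subset_insert _ _
  have h1 : Reach G (insert s B) tp s :=
    (hrp.mono hsub).trans (Reach.step (hsub hp) (mem_insert_self _ _) hsp.symm)
  have h2 : Reach G (insert s B) tp tq :=
    (h1.trans (Reach.step (mem_insert_self _ _) (hsub hq) hsq)).trans (hrq.mono hsub).symm
  have := cc_le_of_cover (G := G) (B := insert s B) (T := T.erase tq) (by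
    intro v hv
    rw [mem_insert] at hv
    rcases hv with rfl | hv
    · exact ⟨tp, mem_erase.2 ⟨hne, htp⟩, h1⟩
    · obtain ⟨t, ht, htv⟩ := hcov v hv
      by_cases h : t = tq
      · subst h
        exact ⟨tp, mem_erase.2 ⟨hne, htp⟩, h2.trans (htv.mono hsub)⟩
      · exact ⟨t, mem_erase.2 ⟨h, ht⟩, htv.mono hsub⟩)
  rw [card_erase_of_mem htq] at this
  have hpos : 0 < T.card := card_pos.2 ⟨tq, htq⟩
  omega

theorem cc_union {B₁ B₂ : Finset V} (hd : Disjoint B₁ B₂)
    (he : ∀ a ∈ B₁, ∀ b ∈ B₂, ¬ G.Adj a b) : cc G (B₁ ∪ B₂) = cc G B₁ + cc G B₂ := by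
  obtain ⟨T₁, hT₁, hc₁, hcov₁⟩ := exists_cc (G := G) B₁
  obtain ⟨T₂, hT₂, hc₂, hcov₂⟩ := exists_cc (G := G) B₂
  have hdT : Disjoint T₁ T₂ := Finset.disjoint_of_subset_left hT₁.1
    (Finset.disjoint_of_subset_right hT₂.1 hd)
  have hcl₁ : ∀ a ∈ B₁, ∀ b ∈ B₁ ∪ B₂, G.Adj a b → b ∈ B₁ := by
    intro a ha b hb hab
    rcases mem_union.1 hb with hb | hb
    · exact hb
    · exact absurd hab (he a ha b hb)
  have hcl₂ : ∀ a ∈ B₂, ∀ b ∈ B₁ ∪ B₂, G.Adj a b → b ∈ B₂ := by
    intro a ha b hb hab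
    rcases mem_union.1 hb with hb | hb
    · exact absurd hab.symm (he b hb a ha)
    · exact hb
  rw [← hc₁, ← hc₂, ← card_union_of_disjoint hdT]
  apply le_antisymm
  · apply cc_le_of_cover
    intro v hv
    rcases mem_union.1 hv with hv | hv
    · obtain ⟨t, ht, h⟩ := hcov₁ v hv
      exact ⟨t, mem_union_left _ ht, h.mono subset_union_left⟩
    · obtain ⟨t, ht, h⟩ := hcov₂ v hv
      exact ⟨t, mem_union_right _ ht, h.mono subset_union_right⟩
  · apply le_cc
    refine ⟨union_subset_union hT₁.1 hT₂.1, ?_⟩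
    intro u hu v hv huv
    rcases mem_union.1 hu with hu | hu
    · have h1 := huv.restrict (hT₁.1 hu) hcl₁
      rcases mem_union.1 hv with hv | hv
      · exact hT₁.2 u hu v hv h1
      · exact absurd (hT₂.1 hv) (Finset.disjoint_left.1 hd (h1.mem (hT₁.1 hu)))
    · have h1 := huv.restrict (hT₂.1 hu) hcl₂
      rcases mem_union.1 hv with hv | hv
      · exact absurd (h1.mem (hT₂.1 hu)) (Finset.disjoint_left.1 hd (hT₁.1 hv))
      · exact hT₂.2 u hu v hv h1

theorem cc_of_indep {Z : Finset V} (h : ∀ a ∈ Z, ∀ b ∈ Z, ¬ G.Adj a b) : cc G Z = Z.card := by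
  apply le_antisymm
  · exact cc_le_of_cover (fun v hv => ⟨v, hv, Reach.refl _ _⟩)
  · apply le_cc
    refine ⟨Subset.refl _, ?_⟩
    intro u hu v _ huv
    exact (huv.eq_of_isolated (h u hu)).symm

/-- under unmixedness, the count is at most the expected one, with equality only for cut sets -/
theorem cc_le_and_cut {A : Finset V} {k : ℕ}
    (hunm : ∀ S, Cut G A S → cc G (A \ S) = S.card + k) (S : Finset V) (hS : S ⊆ A) :
    cc G (A \ S) ≤ S.card + k ∧ (S.card + k ≤ cc G (A \ S) → Cut G A S) := by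
  induction S using Finset.strongInduction with
  | H S ih =>
    by_cases hc : Cut G A S
    · exact ⟨(hunm S hc).le, fun _ => hc⟩
    · have : ∃ s ∈ S, ¬ Sep G (A \ S) s := by
        by_contra hcon
        push Not at hcon
        exact hc ⟨hS, hcon⟩
      obtain ⟨s, hs, hsep⟩ := this
      have h1 := cc_le_cc_insert (by simp [hs]) hsep
      have h2 : insert s (A \ S) = A \ S.erase s := by
        ext x
        simp only [mem_insert, mem_sdiff, mem_erase]
        constructor
        · rintro (rfl | ⟨h1, h2⟩)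
          · exact ⟨hS hs, by simp⟩
          · exact ⟨h1, fun h => h2 h.2⟩
        · rintro ⟨h1, h2⟩
          by_cases hx : x = s
          · exact Or.inl hx
          · exact Or.inr ⟨h1, fun h => h2 ⟨hx, h⟩⟩
      rw [h2] at h1
      have h3 := (ih (S.erase s) (erase_ssubset hs) ((erase_subset _ _).trans hS)).1
      rw [card_erase_of_mem hs] at h3
      have hpos : 0 < S.card := card_pos.2 ⟨s, hs⟩
      constructor
      · omega
      · intro h
        omega

variable (G) in
/-- connected, unmixed and accessible -/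
structure Good (A : Finset V) : Prop where
  unm : ∀ S, Cut G A S → cc G (A \ S) = S.card + 1
  acc : ∀ S, Cut G A S → S.Nonempty → ∃ s ∈ S, Cut G A (S.erase s)

theorem cut_empty (A : Finset V) : Cut G A ∅ := ⟨empty_subset _, by simp⟩

theorem Good.conn {A : Finset V} (h : Good G A) {u v : V} (hu : u ∈ A) (hv : v ∈ A) :
    Reach G A u v := by
  have h1 := h.unm ∅ (cut_empty A)
  simp only [sdiff_empty, card_empty, zero_add] at h1
  have h2 : Indep G A {u} := ⟨by simpa using hu, by simp⟩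
  obtain ⟨t, ht, h3⟩ := h2.cover (by simp [h1]) v hv
  rw [mem_singleton] at ht
  exact ht ▸ h3

theorem Good.descent1 {A : Finset V} (h : Good G A) (S : Finset V) (hS : Cut G A S)
    (T : Finset V) (hT : T ⊆ S) (hne : T.Nonempty) :
    ∃ s ∈ T, ∃ R, Cut G A R ∧ R ⊆ S.erase s ∧ T.erase s ⊆ R := by
  induction S using Finset.strongInduction with
  | H S ih =>
    obtain ⟨s, hs, hc⟩ := h.acc S hS (hne.mono hT)
    by_cases hsT : s ∈ T
    · exact ⟨s, hsT, S.erase s, hc, Subset.refl _, erase_subset_erase _ hT⟩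
    · obtain ⟨s', hs', R, hR, hR1, hR2⟩ := ih (S.erase s) (erase_ssubset hs) hc
        (fun x hx => mem_erase.2 ⟨fun h => hsT (h ▸ hx), hT hx⟩)
      exact ⟨s', hs', R, hR, hR1.trans (erase_subset_erase _ (erase_subset _ _)), hR2⟩

theorem Good.descent2 {A : Finset V} (h : Good G A) (P : V → Prop) (S : Finset V)
    (hS : Cut G A S) (hex : ∃ t ∈ S, ¬ P t) :
    ∃ R ⊆ S, Cut G A R ∧ ∃ t ∈ R, ¬ P t ∧ ∀ s ∈ R, s ≠ t → P s := by
  induction S using Finset.strongInduction with
  | H S ih =>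
    obtain ⟨t, ht, hPt⟩ := hex
    by_cases hall : ∀ s ∈ S, s ≠ t → P s
    · exact ⟨S, Subset.refl _, hS, t, ht, hPt, hall⟩
    · push Not at hall
      obtain ⟨t', ht', hne, hPt'⟩ := hall
      obtain ⟨s, hs, hc⟩ := h.acc S hS ⟨t, ht⟩
      have hex' : ∃ t ∈ S.erase s, ¬ P t := by
        by_cases hst : t = s
        · exact ⟨t', mem_erase.2 ⟨hst ▸ hne, ht'⟩, hPt'⟩
        · exact ⟨t, mem_erase.2 ⟨hst, ht⟩, hPt⟩
      obtain ⟨R, hR, hR'⟩ := ih (S.erase s) (erase_ssubset hs) hc hex'
      exact ⟨R, hR.trans (erase_subset _ _), hR'⟩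

/-- data of a splitting of `A` along `Y ∪ {t}` -/
structure Split (G : SimpleGraph V) (A D E Y Z : Finset V) (t z : V) : Prop where
  cover : ∀ x, x ∈ A ↔ (x ∈ D ∨ x ∈ E ∨ x ∈ Y ∨ x ∈ Z ∨ x = t)
  dDE : Disjoint D E
  dDY : Disjoint D Y
  dDZ : Disjoint D Z
  dEY : Disjoint E Y
  dEZ : Disjoint E Z
  dYZ : Disjoint Y Z
  tD : t ∉ D
  tE : t ∉ E
  tY : t ∉ Y
  tZ : t ∉ Z
  eDE : ∀ a ∈ D, ∀ b ∈ E, ¬ G.Adj a b
  eZ : ∀ a ∈ Z, ∀ b ∈ A, G.Adj a b → b ∈ Y
  card : Z.card = Y.card
  yZ : ∀ y ∈ Y, ∃ a ∈ Z, G.Adj y a ∧ ∀ b ∈ A, G.Adj a b → b = y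
  yE : ∀ y ∈ Y, ∃ e ∈ E, G.Adj y e
  zE : z ∈ E
  tz : G.Adj t z
  connE : ∀ e ∈ E, Reach G E z e

section Her

variable {A D E Y Z : Finset V} {t z : V}

theorem Split.sdiff_eq (h : Split G A D E Y Z t z) {S : Finset V} (hS : S ⊆ insert t D) :
    A \ (S ∪ Y) = ((insert t D \ S) ∪ E) ∪ Z := by
  ext x
  have h1 : x ∈ D → x ∉ E := fun hx => Finset.disjoint_left.1 h.dDE hx
  have h2 : x ∈ D → x ∉ Y := fun hx => Finset.disjoint_left.1 h.dDY hx
  have h3 : x ∈ D → x ∉ Z := fun hx => Finset.disjoint_left.1 h.dDZ hx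
  have h4 : x ∈ E → x ∉ Y := fun hx => Finset.disjoint_left.1 h.dEY hx
  have h5 : x ∈ Y → x ∉ Z := fun hx => Finset.disjoint_left.1 h.dYZ hx
  have h6 : x ∈ S → x = t ∨ x ∈ D := fun hx => mem_insert.1 (hS hx)
  have h7 := h.tE
  have h8 := h.tY
  have h9 := h.tZ
  simp only [mem_sdiff, mem_union, mem_insert, h.cover x]
  grind

theorem Split.sdiff_eq' (h : Split G A D E Y Z t z) {S : Finset V} (hS : S ⊆ insert t D) :
    insert z (insert t D) \ S = insert z (insert t D \ S) := by
  have hz : z ∉ S := by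
    intro hz
    rcases mem_insert.1 (hS hz) with h1 | h1
    · exact h.tE (h1 ▸ h.zE)
    · exact Finset.disjoint_left.1 h.dDE h1 h.zE
  exact Finset.insert_sdiff_of_notMem _ hz

theorem Split.contr (h : Split G A D E Y Z t z) {X : Finset V} (hX : X ⊆ insert t D)
    {u v : V} (hu : u ∈ insert z X) (hv : v ∈ insert z X) (huv : Reach G (X ∪ E) u v) :
    Reach G (insert z X) u v := by
  have hXE : ∀ x ∈ X, x ∉ E := by
    intro x hx hxE
    rcases mem_insert.1 (hX hx) with h1 | h1
    · exact h.tE (h1 ▸ hxE)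
    · exact Finset.disjoint_left.1 h.dDE h1 hxE
  have hXt : ∀ x ∈ X, ∀ e ∈ E, G.Adj x e → x = t := by
    intro x hx e he hxe
    rcases mem_insert.1 (hX hx) with h1 | h1
    · exact h1
    · exact absurd hxe (h.eDE x h1 e he)
  have key := huv.closed (fun x => (x ∈ X ∧ Reach G (insert z X) u x) ∨
    (x ∈ E ∧ Reach G (insert z X) u z)) (by
      rcases mem_insert.1 hu with rfl | hu
      · exact Or.inr ⟨h.zE, Reach.refl _ _⟩
      · exact Or.inl ⟨hu, Reach.refl _ _⟩) (by
      intro a _ b hb hab ha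
      rcases ha with ⟨ha, hua⟩ | ⟨ha, hua⟩ <;> rcases mem_union.1 hb with hb | hb
      · exact Or.inl ⟨hb, hua.trans
          (Reach.step (mem_insert_of_mem ha) (mem_insert_of_mem hb) hab)⟩
      · have := hXt a ha b hb hab
        subst this
        exact Or.inr ⟨hb, hua.trans
          (Reach.step (mem_insert_of_mem ha) (mem_insert_self _ _) h.tz)⟩
      · have := hXt b hb a ha hab.symm
        subst this
        exact Or.inl ⟨hb, hua.trans
          (Reach.step (mem_insert_self _ _) (mem_insert_of_mem hb) h.tz.symm)⟩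
      · exact Or.inr ⟨hb, hua⟩)
  rcases key with ⟨-, h1⟩ | ⟨h1, h2⟩
  · exact h1
  · rcases mem_insert.1 hv with rfl | hv
    · exact h2
    · exact absurd h1 (hXE v hv)

theorem Split.cc_contr (h : Split G A D E Y Z t z) {X : Finset V} (hX : X ⊆ insert t D) :
    cc G (X ∪ E) = cc G (insert z X) := by
  have hsub : insert z X ⊆ X ∪ E := insert_subset (mem_union_right _ h.zE) subset_union_left
  obtain ⟨T, hT, hc, hcov⟩ := exists_cc (G := G) (insert z X)
  rw [← hc]
  apply le_antisymm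
  · apply cc_le_of_cover
    intro v hv
    rcases mem_union.1 hv with hv | hv
    · obtain ⟨s, hs, h1⟩ := hcov v (mem_insert_of_mem hv)
      exact ⟨s, hs, h1.mono hsub⟩
    · obtain ⟨s, hs, h1⟩ := hcov z (mem_insert_self _ _)
      exact ⟨s, hs, (h1.mono hsub).trans ((h.connE v hv).mono subset_union_right)⟩
  · apply le_cc
    refine ⟨hT.1.trans hsub, ?_⟩
    intro u hu v hv huv
    exact hT.2 u hu v hv (h.contr hX (hT.1 hu) (hT.1 hv) huv)

theorem Split.noedge (h : Split G A D E Y Z t z) {X : Finset V} (hX : X ⊆ insert t D) :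
    Disjoint (X ∪ E) Z ∧ ∀ a ∈ X ∪ E, ∀ b ∈ Z, ¬ G.Adj a b := by
  have h1 : ∀ a ∈ X ∪ E, a ∈ A ∧ a ∉ Y ∧ a ∉ Z := by
    intro a ha
    rcases mem_union.1 ha with ha | ha
    · rcases mem_insert.1 (hX ha) with rfl | ha
      · exact ⟨(h.cover _).2 (by simp), h.tY, h.tZ⟩
      · exact ⟨(h.cover _).2 (by simp [ha]), Finset.disjoint_left.1 h.dDY ha,
          Finset.disjoint_left.1 h.dDZ ha⟩
    · exact ⟨(h.cover _).2 (by simp [ha]), Finset.disjoint_left.1 h.dEY ha,
          Finset.disjoint_left.1 h.dEZ ha⟩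
  refine ⟨Finset.disjoint_left.2 (fun a ha => (h1 a ha).2.2), ?_⟩
  intro a ha b hb hab
  exact (h1 a ha).2.1 (h.eZ b hb a (h1 a ha).1 hab.symm)

theorem Split.count (h : Split G A D E Y Z t z) {S : Finset V} (hS : S ⊆ insert t D) :
    cc G (A \ (S ∪ Y)) = cc G (insert z (insert t D) \ S) + Y.card := by
  have hX : insert t D \ S ⊆ insert t D := sdiff_subset
  rw [h.sdiff_eq hS, h.sdiff_eq' hS, cc_union (h.noedge hX).1 (h.noedge hX).2, h.cc_contr hX,
    cc_of_indep (Z := Z), h.card]
  intro a ha b hb hab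
  exact Finset.disjoint_left.1 h.dYZ (h.eZ a ha b ((h.cover b).2 (by simp [hb])) hab) hb

theorem Split.sepY (h : Split G A D E Y Z t z) {R : Finset V} (hR : R ⊆ insert t D ∪ Y)
    {y : V} (hy : y ∈ Y) (hyR : y ∈ R) : Sep G (A \ R) y := by
  obtain ⟨a, ha, hya, ha'⟩ := h.yZ y hy
  obtain ⟨e, he, hye⟩ := h.yE y hy
  have haR : a ∉ R := by
    intro haR
    rcases mem_union.1 (hR haR) with h1 | h1
    · rcases mem_insert.1 h1 with h1 | h1
      · exact h.tZ (h1 ▸ ha)
      · exact Finset.disjoint_left.1 h.dDZ h1 ha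
    · exact Finset.disjoint_left.1 h.dYZ h1 ha
  have heR : e ∉ R := by
    intro heR
    rcases mem_union.1 (hR heR) with h1 | h1
    · rcases mem_insert.1 h1 with h1 | h1
      · exact h.tE (h1 ▸ he)
      · exact Finset.disjoint_left.1 h.dDE h1 he
    · exact Finset.disjoint_left.1 h.dEY he h1
  refine ⟨a, mem_sdiff.2 ⟨(h.cover a).2 (by simp [ha]), haR⟩, e,
    mem_sdiff.2 ⟨(h.cover e).2 (by simp [he]), heR⟩, hya, hye, ?_⟩
  intro hr
  have := hr.eq_of_isolated (by
    intro b hb hab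
    have := ha' b (mem_sdiff.1 hb).1 hab
    exact (mem_sdiff.1 hb).2 (this ▸ hyR))
  exact Finset.disjoint_left.1 h.dEZ he (this ▸ ha)

theorem Split.subset_of_cut (h : Split G A D E Y Z t z) {S : Finset V}
    (hS : Cut G (insert z (insert t D)) S) : S ⊆ insert t D := by
  intro s hs
  rcases mem_insert.1 (hS.1 hs) with rfl | h1
  · exfalso
    obtain ⟨p, hp, q, hq, hsp, hsq, hpq⟩ := hS.2 s hs
    have key : ∀ x ∈ insert s (insert t D) \ S, G.Adj s x → x = t := by
      intro x hx hsx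
      rcases mem_insert.1 (mem_sdiff.1 hx).1 with rfl | h1
      · exact absurd hsx G.irrefl
      · rcases mem_insert.1 h1 with h1 | h1
        · exact h1
        · exact absurd hsx.symm (h.eDE x h1 s h.zE)
    apply hpq
    rw [key p hp hsp, key q hq hsq]
    exact Reach.refl _ _
  · exact h1

theorem Split.disjY (h : Split G A D E Y Z t z) {S : Finset V} (hS : S ⊆ insert t D) :
    Disjoint S Y := by
  rw [Finset.disjoint_left]
  intro a ha haY
  rcases mem_insert.1 (hS ha) with h1 | h1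
  · exact h.tY (h1 ▸ haY)
  · exact Finset.disjoint_left.1 h.dDY h1 haY

theorem Split.cut_lift (h : Split G A D E Y Z t z) {S : Finset V}
    (hS : Cut G (insert z (insert t D)) S) : Cut G A (S ∪ Y) := by
  have hS' := h.subset_of_cut hS
  have hX : insert t D \ S ⊆ insert t D := sdiff_subset
  constructor
  · intro x hx
    rcases mem_union.1 hx with hx | hx
    · rcases mem_insert.1 (hS' hx) with h1 | h1
      · exact (h.cover x).2 (by simp [h1])
      · exact (h.cover x).2 (by simp [h1])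
    · exact (h.cover x).2 (by simp [hx])
  · intro s hs
    rcases mem_union.1 hs with hs' | hs'
    · obtain ⟨p, hp, q, hq, hsp, hsq, hpq⟩ := hS.2 s hs'
      rw [h.sdiff_eq' hS'] at hp hq hpq
      have hsub : insert z (insert t D \ S) ⊆ (insert t D \ S) ∪ E :=
        insert_subset (mem_union_right _ h.zE) subset_union_left
      rw [h.sdiff_eq hS']
      refine ⟨p, mem_union_left _ (hsub hp), q, mem_union_left _ (hsub hq), hsp, hsq, ?_⟩
      intro hr
      apply hpq
      apply h.contr hX hp hq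
      apply hr.restrict (hsub hp)
      intro a ha b hb hab
      rcases mem_union.1 hb with hb | hb
      · exact hb
      · exact absurd hab ((h.noedge hX).2 a ha b hb)
    · exact h.sepY (union_subset_union hS' (Subset.refl _)) hs' hs

theorem Split.add_Y (h : Split G A D E Y Z t z) {R : Finset V} (hR : R ⊆ insert t D ∪ Y)
    (Y' : Finset V) (hY' : Y' ⊆ Y) (hd : Disjoint R Y') :
    cc G (A \ R) + Y'.card ≤ cc G (A \ (R ∪ Y')) := by
  induction Y' using Finset.induction_on with
  | empty => simp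
  | insert y Y' hy ih =>
    have hyY : y ∈ Y := hY' (mem_insert_self _ _)
    have h1 := ih ((subset_insert _ _).trans hY') (Finset.disjoint_of_subset_right
      (subset_insert _ _) hd)
    have h2 := cc_insert_lt (h.sepY (R := R ∪ insert y Y')
      (union_subset hR (hY'.trans subset_union_right)) hyY (by simp))
    have hyR : y ∉ R := fun hyR => Finset.disjoint_left.1 hd hyR (mem_insert_self _ _)
    have hyA : y ∈ A := (h.cover y).2 (by simp [hyY])
    have h3 : insert y (A \ (R ∪ insert y Y')) = A \ (R ∪ Y') := by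
      ext x
      simp only [mem_insert, mem_sdiff, mem_union]
      grind
    rw [h3] at h2
    rw [card_insert_of_notMem hy]
    omega

theorem Split.good (h : Split G A D E Y Z t z) (hA : Good G A) :
    Good G (insert z (insert t D)) := by
  have hunm : ∀ S, Cut G (insert z (insert t D)) S →
      cc G (insert z (insert t D) \ S) = S.card + 1 := by
    intro S hS
    have hS' := h.subset_of_cut hS
    have h1 := hA.unm _ (h.cut_lift hS)
    rw [h.count hS', card_union_of_disjoint (h.disjY hS')] at h1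
    omega
  refine ⟨hunm, ?_⟩
  intro S hS hne
  have hS' := h.subset_of_cut hS
  obtain ⟨s, hs, R, hR, hR1, hR2⟩ := hA.descent1 _ (h.cut_lift hS) S subset_union_left hne
  refine ⟨s, hs, ?_⟩
  have hSe : S.erase s ⊆ insert t D := (erase_subset _ _).trans hS'
  apply (cc_le_and_cut hunm (S.erase s) (hSe.trans (subset_insert _ _))).2
  have hRsub : R ⊆ insert t D ∪ Y :=
    hR1.trans ((erase_subset _ _).trans (union_subset_union hS' (Subset.refl _)))
  have h1 := h.add_Y hRsub (Y \ R) sdiff_subset disjoint_sdiff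
  have h2 : R ∪ Y \ R = S.erase s ∪ Y := by
    ext x
    have e1 : x ∈ R → x ≠ s ∧ (x ∈ S ∨ x ∈ Y) := by
      intro hx
      have := hR1 hx
      simpa using this
    have e2 : x ≠ s → x ∈ S → x ∈ R := fun h1 h2 => hR2 (mem_erase.2 ⟨h1, h2⟩)
    simp only [mem_union, mem_sdiff, mem_erase]
    grind
  have h3 : R.card + (Y \ R).card = (S.erase s).card + Y.card := by
    rw [← card_union_of_disjoint disjoint_sdiff, h2, card_union_of_disjoint (h.disjY hSe)]
  rw [h2, h.count hSe, hA.unm R hR] at h1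
  omega

end Her

end Pool.Agent.P.MP_e66ac9_al
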