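import Mathlib

set_option autoImplicit false

namespace Pool.Agent.P.MP_e66ac9_al

/-- The depth of a local ring: the supremum of the lengths of the regular sequences
contained in the maximal ideal. -/
noncomputable def localDepth (R : Type) [CommRing R] [IsLocalRing R] : ℕ∞ :=
  ⨆ (rs : List R) (_ : ∀ r ∈ rs, r ∈ IsLocalRing.maximalIdeal R)
    (_ : RingTheory.Sequence.IsRegular R rs), (rs.length : ℕ∞)

/-- A Noetherian ring is Cohen-Macaulay if depth equals Krull dimension
for its localization at every maximal ideal. -/
def IsCohenMacaulay (R : Type) [CommRing R] : Prop :=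
  IsNoetherianRing R ∧ ∀ (m : Ideal R) [m.IsMaximal],
    (localDepth (Localization.AtPrime m) : WithBot ℕ∞) = ringKrullDim (Localization.AtPrime m)

/-- The binomial edge ideal of a graph on `Fin n`; the variable `x i` is `X (Sum.inl i)` and
the variable `y i` is `X (Sum.inr i)`. -/
noncomputable def binomialEdgeIdeal (K : Type) [Field K] {n : ℕ} (G : SimpleGraph (Fin n)) :
    Ideal (MvPolynomial (Fin n ⊕ Fin n) K) :=
  Ideal.span {f | ∃ i j : Fin n, G.Adj i j ∧ i < j ∧
    f = MvPolynomial.X (Sum.inl i) * MvPolynomial.X (Sum.inr j) -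
      MvPolynomial.X (Sum.inl j) * MvPolynomial.X (Sum.inr i)}

end Pool.Agent.P.MP_e66ac9_al
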