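import Pool.Agent.P.MP_e66ac9_al.Comp

set_option autoImplicit false

namespace Pool.Agent.P.MP_e66ac9_al

open Finset

variable {V : Type*} [DecidableEq V] {G : SimpleGraph V}

variable (G) in
/-- a vertex of degree one in `A` -/
def Leaf (A : Finset V) (a : V) : Prop :=
  a ∈ A ∧ ∃ u ∈ A, G.Adj a u ∧ ∀ w ∈ A, G.Adj a w → w = u

variable (G) in
/-- a cut vertex of `A` -/
def CutV (A : Finset V) (w : V) : Prop := w ∈ A ∧ Sep G (A \ {w}) w

variable (G) in
/-- abstract properties of the vertex set of an induced cycle of length at least five -/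
structure Bad (C : Finset V) : Prop where
  ne : C.Nonempty
  conn : ∀ t, ∀ u ∈ C, ∀ v ∈ C, u ≠ t → v ≠ t → Reach G (C.erase t) u v
  two : ∀ a ∈ C, ∃ p ∈ C, ∃ q ∈ C, p ≠ q ∧ G.Adj a p ∧ G.Adj a q
  far : ∀ a ∈ C, ∃ p ∈ C, ∃ q ∈ C, G.Adj p q ∧ p ≠ a ∧ q ≠ a ∧ ¬ G.Adj a p ∧ ¬ G.Adj a q

variable (G) in
/-- the conclusion of the induction -/
def Concl (A : Finset V) : Prop :=
  (∀ C ⊆ A, ¬ Bad G C) ∧
    ∀ a b c, Leaf G A a → Leaf G A b → Leaf G A c → a = b ∨ a = c ∨ b = c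

omit [DecidableEq V] in
theorem Leaf.unique {A : Finset V} {a u w : V} (h : Leaf G A a) (hu : u ∈ A) (hw : w ∈ A)
    (hau : G.Adj a u) (haw : G.Adj a w) : u = w := by
  obtain ⟨-, x, -, -, hx⟩ := h
  rw [hx u hu hau, hx w hw haw]

theorem CutV.not_leaf {A : Finset V} {w : V} (h : CutV G A w) : ¬ Leaf G A w := by
  intro hl
  obtain ⟨-, p, hp, q, hq, hwp, hwq, hpq⟩ := h
  apply hpq
  rw [hl.unique (mem_sdiff.1 hp).1 (mem_sdiff.1 hq).1 hwp hwq]
  exact Reach.refl _ _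

theorem CutV.cut {A : Finset V} {w : V} (h : CutV G A w) : Cut G A {w} :=
  ⟨by simpa using h.1, by simpa using h.2⟩

theorem Bad.not_leaf {A C : Finset V} (h : Bad G C) (hC : C ⊆ A) {a : V} (ha : a ∈ C) :
    ¬ Leaf G A a := by
  intro hl
  obtain ⟨p, hp, q, hq, hpq, hap, haq⟩ := h.two a ha
  exact hpq (hl.unique (hC hp) (hC hq) hap haq)

theorem Bad.side {C D E : Finset V} {t : V} (h : Bad G C)
    (hC : ∀ x ∈ C, x = t ∨ x ∈ D ∨ x ∈ E) (he : ∀ a ∈ D, ∀ b ∈ E, ¬ G.Adj a b) :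
    C ⊆ insert t D ∨ C ⊆ insert t E := by
  by_contra hcon
  push Not at hcon
  obtain ⟨h1, h2⟩ := hcon
  obtain ⟨u, hu, hu'⟩ := not_subset.1 h1
  obtain ⟨v, hv, hv'⟩ := not_subset.1 h2
  simp only [mem_insert, not_or] at hu' hv'
  have hr := h.conn t u hu v hv hu'.1 hv'.1
  have huE : u ∈ E := by
    rcases hC u hu with h | h | h
    · exact absurd h hu'.1
    · exact absurd h hu'.2
    · exact h
  apply hv'.2
  refine hr.closed (fun x => x ∈ E) huE ?_
  intro a _ b hb hab ha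
  rcases hC b (mem_erase.1 hb).2 with h | h | h
  · exact absurd h (mem_erase.1 hb).1
  · exact absurd hab.symm (he b h a ha)
  · exact h

theorem Split.concl {A D E Y Z : Finset V} {t z : V} (h : Split G A D E Y Z t z)
    (hA : Good G A) (ih : ∀ L ⊂ A, Good G L → Concl G L)
    (hlt : Y.Nonempty ∨ ∃ e ∈ E, e ≠ z) :
    (∀ a ∈ D, ∀ b ∈ D, Leaf G A a → Leaf G A b → a = b) ∧ ∀ C ⊆ insert t D, ¬ Bad G C := by
  have hL := h.good hA
  have hzD : z ∉ D := fun hz => Finset.disjoint_left.1 h.dDE hz h.zE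
  have hsub : insert z (insert t D) ⊆ A := by
    intro x hx
    rw [h.cover]
    simp only [mem_insert] at hx
    rcases hx with rfl | rfl | hx
    · simp [h.zE]
    · simp
    · simp [hx]
  have hss : insert z (insert t D) ⊂ A := by
    refine ⟨hsub, ?_⟩
    intro hcon
    rcases hlt with ⟨y, hy⟩ | ⟨e, he, hez⟩
    · have := hcon ((h.cover y).2 (by simp [hy]))
      simp only [mem_insert] at this
      rcases this with rfl | rfl | h1
      · exact Finset.disjoint_left.1 h.dEY h.zE hy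
      · exact h.tY hy
      · exact Finset.disjoint_left.1 h.dDY h1 hy
    · have := hcon ((h.cover e).2 (by simp [he]))
      simp only [mem_insert] at this
      rcases this with rfl | rfl | h1
      · exact hez rfl
      · exact h.tE he
      · exact Finset.disjoint_left.1 h.dDE h1 he
  obtain ⟨h1, h2⟩ := ih _ hss hL
  refine ⟨?_, fun C hC => h1 C (hC.trans (subset_insert _ _))⟩
  have hleaf : ∀ a ∈ D, Leaf G A a → Leaf G (insert z (insert t D)) a := by
    intro a ha hl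
    have haL : a ∈ insert z (insert t D) := by simp [ha]
    have htL : t ∈ insert z (insert t D) := by simp
    obtain ⟨b, hb, hab⟩ := (hL.conn haL htL).exists_adj (fun h1 => h.tD (h1 ▸ ha))
    exact ⟨haL, b, hb, hab, fun w hw haw => hl.unique (hsub hw) (hsub hb) haw hab⟩
  have hz : Leaf G (insert z (insert t D)) z := by
    refine ⟨by simp, t, by simp, h.tz.symm, ?_⟩
    intro w hw hzw
    simp only [mem_insert] at hw
    rcases hw with rfl | rfl | hw
    · exact absurd hzw G.irrefl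
    · rfl
    · exact absurd hzw.symm (h.eDE w hw z h.zE)
  intro a ha b hb hla hlb
  rcases h2 a b z (hleaf a ha hla) (hleaf b hb hlb) hz with h3 | h3 | h3
  · exact h3
  · exact absurd (h3 ▸ ha) hzD
  · exact absurd (h3 ▸ hb) hzD

open Classical in
/-- the case of a cut vertex without a pendant leaf -/
theorem concl_of_cutV {A : Finset V} (hA : Good G A) (ih : ∀ L ⊂ A, Good G L → Concl G L)
    {w : V} (hw : CutV G A w) (hno : ∀ l, G.Adj w l → ¬ Leaf G A l) : Concl G A := by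
  obtain ⟨hwA, p, hp, q, hq, hwp, hwq, hpq⟩ := id hw
  have hc := hA.unm _ hw.cut
  have hne : p ≠ q := by
    rintro rfl
    exact hpq (Reach.refl _ _)
  have hind : Indep G (A \ {w}) (insert q {p}) :=
    Indep.insert ⟨by simpa using hp, by simp⟩ hq (by simpa using hpq)
  have hcov := hind.cover (by
    rw [hc, card_insert_of_notMem (by simpa using hne.symm)]
    simp)
  have mk : ∀ p q : V, p ∈ A \ {w} → q ∈ A \ {w} → G.Adj w q → ¬ Reach G (A \ {w}) p q →
      (∀ v ∈ A \ {w}, Reach G (A \ {w}) p v ∨ Reach G (A \ {w}) q v) →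
      Split G A ((A \ {w}).filter (Reach G (A \ {w}) p)) ((A \ {w}).filter (Reach G (A \ {w}) q))
        ∅ ∅ w q ∧ ∃ e ∈ (A \ {w}).filter (Reach G (A \ {w}) q), e ≠ q := by
    intro p q hp hq hwq hpq hcov
    have hcl : ∀ a ∈ (A \ {w}).filter (Reach G (A \ {w}) q), ∀ b ∈ A \ {w}, G.Adj a b →
        b ∈ (A \ {w}).filter (Reach G (A \ {w}) q) := by
      intro a ha b hb hab
      rw [mem_filter] at ha ⊢
      exact ⟨hb, ha.2.trans (Reach.step ha.1 hb hab)⟩
    have hqE : q ∈ (A \ {w}).filter (Reach G (A \ {w}) q) := mem_filter.2 ⟨hq, Reach.refl _ _⟩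
    refine ⟨⟨?_, ?_, by simp, by simp, by simp, by simp, by simp, by simp, by simp, by simp,
      by simp, ?_, by simp, rfl, by simp, by simp, hqE, hwq, ?_⟩, ?_⟩
    · intro x
      constructor
      · intro hx
        by_cases hxw : x = w
        · simp [hxw]
        · have hx' : x ∈ A \ {w} := by simp [hx, hxw]
          rcases hcov x hx' with h | h
          · exact Or.inl (mem_filter.2 ⟨hx', h⟩)
          · exact Or.inr (Or.inl (mem_filter.2 ⟨hx', h⟩))
      · rintro (h | h | h | h | h)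
        · exact (mem_sdiff.1 (mem_filter.1 h).1).1
        · exact (mem_sdiff.1 (mem_filter.1 h).1).1
        · simp at h
        · simp at h
        · exact h ▸ hwA
    · rw [Finset.disjoint_left]
      intro a ha ha'
      exact hpq ((mem_filter.1 ha).2.trans (mem_filter.1 ha').2.symm)
    · intro a ha b hb hab
      rw [mem_filter] at ha hb
      exact hpq ((ha.2.trans (Reach.step ha.1 hb.1 hab)).trans hb.2.symm)
    · intro e he
      exact (mem_filter.1 he).2.restrict hqE hcl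
    · by_contra hcon
      push Not at hcon
      apply hno q hwq
      refine ⟨(mem_sdiff.1 hq).1, w, hwA, hwq.symm, ?_⟩
      intro x hx hqx
      by_contra hxw
      have := hcon x (hcl q hqE x (by simp [hx, hxw]) hqx)
      exact G.irrefl (this ▸ hqx)
  have hcov' : ∀ v ∈ A \ {w}, Reach G (A \ {w}) p v ∨ Reach G (A \ {w}) q v := by
    intro v hv
    obtain ⟨s, hs, h⟩ := hcov v hv
    simp only [mem_insert, mem_singleton] at hs
    rcases hs with rfl | rfl
    · exact Or.inr h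
    · exact Or.inl h
  obtain ⟨s1, e1⟩ := mk p q hp hq hwq hpq hcov'
  obtain ⟨s2, e2⟩ := mk q p hq hp hwp (fun h => hpq h.symm) (fun v hv => (hcov' v hv).symm)
  obtain ⟨l1, b1⟩ := s1.concl hA ih (Or.inr e1)
  obtain ⟨l2, b2⟩ := s2.concl hA ih (Or.inr e2)
  have hside : ∀ x ∈ A, x = w ∨ x ∈ (A \ {w}).filter (Reach G (A \ {w}) p) ∨
      x ∈ (A \ {w}).filter (Reach G (A \ {w}) q) := by
    intro x hx
    have := (s1.cover x).1 hx
    simp only [notMem_empty, false_or] at this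
    tauto
  constructor
  · intro C hC hbad
    rcases hbad.side (fun x hx => hside x (hC hx)) s1.eDE with h | h
    · exact b1 C h hbad
    · exact b2 C h hbad
  · intro a b c ha hb hc
    have f : ∀ x, Leaf G A x → x ∈ (A \ {w}).filter (Reach G (A \ {w}) p) ∨
        x ∈ (A \ {w}).filter (Reach G (A \ {w}) q) := by
      intro x hx
      rcases hside x hx.1 with h | h
      · exact absurd (h ▸ hx) hw.not_leaf
      · exact h
    rcases f a ha with h1 | h1 <;> rcases f b hb with h2 | h2 <;> rcases f c hc with h3 | h3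
    · exact Or.inl (l1 a h1 b h2 ha hb)
    · exact Or.inl (l1 a h1 b h2 ha hb)
    · exact Or.inr (Or.inl (l1 a h1 c h3 ha hc))
    · exact Or.inr (Or.inr (l2 b h2 c h3 hb hc))
    · exact Or.inr (Or.inr (l1 b h2 c h3 hb hc))
    · exact Or.inr (Or.inl (l2 a h1 c h3 ha hc))
    · exact Or.inl (l2 a h1 b h2 ha hb)
    · exact Or.inl (l2 a h1 b h2 ha hb)

section Whisk

variable (htri : ∀ a b c, G.Adj a b → G.Adj b c → ¬ G.Adj a c)
include htri

open Classical in
omit htri in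
theorem reach_of_nb {A : Finset V} {v x : V} (hv : v ∈ A) {B : Finset V} (hB : B ⊆ A)
    (hB' : ∀ s ∈ B, G.Adj v s → Leaf G A s) (h : Reach G B v x) :
    x = v ∨ (G.Adj v x ∧ Leaf G A x) := by
  refine h.closed (fun x => x = v ∨ (G.Adj v x ∧ Leaf G A x)) (Or.inl rfl) ?_
  intro a _ b hb hab ha
  rcases ha with rfl | ⟨h1, h2⟩
  · exact Or.inr ⟨hab, hB' b hb hab⟩
  · exact Or.inl (h2.unique (hB hb) hv hab h1.symm)

open Classical in
theorem cut_nb {A : Finset V} {v : V} (hv : v ∈ A) :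
    Cut G A (A.filter (fun s => G.Adj v s ∧ ¬ Leaf G A s)) := by
  refine ⟨filter_subset _ _, ?_⟩
  intro s hs
  obtain ⟨hsA, hvs, hs'⟩ := mem_filter.1 hs
  have : ∃ w ∈ A, G.Adj s w ∧ w ≠ v := by
    by_contra hcon
    push Not at hcon
    exact hs' ⟨hsA, v, hv, hvs.symm, hcon⟩
  obtain ⟨w, hw, hsw, hwv⟩ := this
  have hvw : ¬ G.Adj v w := htri v s w hvs hsw
  refine ⟨v, by simp [hv], w, by simp [hw, hvw], hvs.symm, hsw, ?_⟩
  intro hr
  rcases reach_of_nb hv sdiff_subset (by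
    intro x hx hvx
    by_contra hcon
    exact (mem_sdiff.1 hx).2 (mem_filter.2 ⟨(mem_sdiff.1 hx).1, hvx, hcon⟩)) hr with h | h
  · exact hwv h
  · exact hvw h.1

variable {A : Finset V} (hA : Good G A) (wh : V → V)
  (hwh : ∀ w, CutV G A w → G.Adj w (wh w) ∧ Leaf G A (wh w))
include hA hwh

omit htri hA in
theorem wh_inj {Y : Finset V} (hY : ∀ y ∈ Y, CutV G A y) : Set.InjOn wh Y := by
  intro a ha b hb hab
  have h1 := hwh a (hY a ha)
  have h2 := hwh b (hY b hb)
  rw [← hab] at h2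
  exact h1.2.unique (hY a ha).1 (hY b hb).1 h1.1.symm h2.1.symm

omit htri hA in
theorem wh_isolated {y : V} (hy : CutV G A y) {B : Finset V} (hB : B ⊆ A) (hyB : y ∉ B) {x : V}
    (h : Reach G B (wh y) x) : x = wh y := by
  apply h.eq_of_isolated
  intro b hb hab
  have h1 := hwh y hy
  exact hyB (h1.2.unique (hB hb) hy.1 hab h1.1.symm ▸ hb)

omit htri hA in
theorem indep_wh {R Y : Finset V} (hY : ∀ y ∈ Y, CutV G A y) (hYR : Y ⊆ R)
    (hR : ∀ r ∈ R, ¬ Leaf G A r) : Indep G (A \ R) (Y.image wh) := by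
  constructor
  · intro x hx
    obtain ⟨y, hy, rfl⟩ := mem_image.1 hx
    have := hwh y (hY y hy)
    exact mem_sdiff.2 ⟨this.2.1, fun h => hR _ h this.2⟩
  · intro u hu v _ huv
    obtain ⟨y, hy, rfl⟩ := mem_image.1 hu
    exact (wh_isolated wh hwh (hY y hy) sdiff_subset (by simp [hYR hy]) huv).symm

open Classical in
theorem exists_U_nb
    (h3 : ∃ a ∈ A, ∃ b ∈ A, ∃ c ∈ A, ¬ Leaf G A a ∧ ¬ Leaf G A b ∧ ¬ Leaf G A c ∧
      a ≠ b ∧ a ≠ c ∧ b ≠ c) {v : V} (hv : v ∈ A) (hv' : ¬ Leaf G A v) :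
    ∃ t ∈ A.filter (fun s => G.Adj v s ∧ ¬ Leaf G A s), ¬ CutV G A t := by
  by_contra hcon
  push Not at hcon
  set S := A.filter (fun s => G.Adj v s ∧ ¬ Leaf G A s) with hSdef
  have hS : ∀ s, s ∈ S ↔ s ∈ A ∧ G.Adj v s ∧ ¬ Leaf G A s := fun s => mem_filter
  have hcut : Cut G A S := cut_nb htri hv
  have hc := hA.unm S hcut
  have hvS : v ∈ A \ S := by simp [hS, hv]
  have hi1 := indep_wh wh hwh hcon (Subset.refl S) (fun r hr => ((hS r).1 hr).2.2)
  have hnr : ∀ t ∈ S.image wh, ¬ Reach G (A \ S) t v := by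
    intro t ht hr
    obtain ⟨y, hy, rfl⟩ := mem_image.1 ht
    have := wh_isolated wh hwh (hcon y hy) sdiff_subset (by simp [hy]) hr
    exact hv' (this ▸ (hwh y (hcon y hy)).2)
  have hi2 := hi1.insert hvS hnr
  have hvn : v ∉ S.image wh := fun h => hnr v h (Reach.refl _ _)
  have hcov := hi2.cover (by
    rw [hc, card_insert_of_notMem hvn, card_image_of_injOn (wh_inj wh hwh hcon)])
  have hNL : ∀ x ∈ A, ¬ Leaf G A x → x = v ∨ x ∈ S := by
    intro x hx hx'
    by_contra hc2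
    push Not at hc2
    obtain ⟨t, ht, hr⟩ := hcov x (mem_sdiff.2 ⟨hx, hc2.2⟩)
    rcases mem_insert.1 ht with rfl | ht
    · rcases reach_of_nb hv sdiff_subset (by
        intro x hx hvx
        by_contra hcon
        exact (mem_sdiff.1 hx).2 ((hS x).2 ⟨(mem_sdiff.1 hx).1, hvx, hcon⟩)) hr with h | h
      · exact hc2.1 h
      · exact hx' h.2
    · obtain ⟨y, hy, rfl⟩ := mem_image.1 ht
      have := wh_isolated wh hwh (hcon y hy) sdiff_subset (by simp [hy]) hr
      exact hx' (this ▸ (hwh y (hcon y hy)).2)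
  have hex : ∃ s₁ ∈ S, ∃ s₂ ∈ S, s₁ ≠ s₂ := by
    obtain ⟨a, ha, b, hb, c, hc, ha', hb', hc', hab, hac, hbc⟩ := h3
    rcases hNL a ha ha' with h1 | h1 <;> rcases hNL b hb hb' with h2 | h2 <;>
      rcases hNL c hc hc' with h3 | h3
    · exact absurd (h1.trans h2.symm) hab
    · exact absurd (h1.trans h2.symm) hab
    · exact absurd (h1.trans h3.symm) hac
    · exact ⟨b, h2, c, h3, hbc⟩
    · exact absurd (h2.trans h3.symm) hbc
    · exact ⟨a, h1, c, h3, hac⟩
    · exact ⟨a, h1, b, h2, hab⟩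
    · exact ⟨a, h1, b, h2, hab⟩
  obtain ⟨s₁, hs₁, s₂, hs₂, hne⟩ := hex
  obtain ⟨h11, h12, h13⟩ := (hS s₁).1 hs₁
  obtain ⟨h21, h22, h23⟩ := (hS s₂).1 hs₂
  have m1 : s₁ ∈ A \ {v} := by simp [h11, h12.ne']
  have m2 : s₂ ∈ A \ {v} := by simp [h21, h22.ne']
  have hnr12 : ¬ Reach G (A \ {v}) s₁ s₂ := by
    intro hr
    rcases reach_of_nb h11 sdiff_subset (by
      intro x hx hsx
      by_contra hcon
      rcases hNL x (mem_sdiff.1 hx).1 hcon with h | h
      · exact (mem_sdiff.1 hx).2 (by simp [h])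
      · exact htri v s₁ x h12 hsx ((hS x).1 h).2.1) hr with h | h
    · exact hne h.symm
    · exact h23 h.2
  have hvW : CutV G A v := ⟨hv, s₁, m1, s₂, m2, h12, h22, hnr12⟩
  have hc2 := hA.unm _ hvW.cut
  have hwv := hwh v hvW
  have hi3 : Indep G (A \ {v}) (insert s₂ {s₁}) :=
    Indep.insert ⟨by simpa using m1, by simp⟩ m2 (by simpa using hnr12)
  have hnr3 : ∀ t ∈ (insert s₂ {s₁} : Finset V), ¬ Reach G (A \ {v}) t (wh v) := by
    intro t ht hr
    have := wh_isolated wh hwh hvW sdiff_subset (by simp) hr.symm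
    simp only [mem_insert, mem_singleton] at ht
    rcases ht with rfl | rfl
    · exact h23 (this ▸ hwv.2)
    · exact h13 (this ▸ hwv.2)
  have hi4 := hi3.insert (x := wh v) (by simp [hwv.2.1, hwv.1.ne']) hnr3
  have := le_cc hi4
  rw [card_insert_of_notMem (fun h => hnr3 _ h (Reach.refl _ _)),
    card_insert_of_notMem (by simpa using hne.symm), hc2] at this
  simp at this

omit htri hA hwh in
variable (G A) in
/-- the local structure around a non-leaf vertex -/
structure Atom (v t : V) (D E Y : Finset V) : Prop where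
  tA : t ∈ A
  tW : ¬ CutV G A t
  tL : ¬ Leaf G A t
  vt : G.Adj v t
  vE : v ∈ E
  Yne : Y.Nonempty
  YW : ∀ y ∈ Y, CutV G A y ∧ G.Adj v y
  cov : ∀ x ∈ A, ¬ Leaf G A x → x ∈ D ∨ x ∈ E ∨ x ∈ Y ∨ x = t
  eDE : ∀ a ∈ D, ∀ b ∈ E, ¬ G.Adj a b
  tD : t ∉ D
  tE : t ∉ E
  DA : D ⊆ A
  EA : E ⊆ A
  WD : ∀ a ∈ D, ∀ b ∈ D, CutV G A a → CutV G A b → a = b
  WE : ∀ a ∈ E, ∀ b ∈ E, CutV G A a → CutV G A b → a = b
  bD : ∀ C ⊆ insert t D, ¬ Bad G C
  bE : ∀ C ⊆ insert t E, ¬ Bad G C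
  cD : ∀ a ∈ D, ∀ b ∈ D, Reach G D a b
  cE : ∀ a ∈ E, ∀ b ∈ E, Reach G E a b

open Classical in
theorem exists_atom (ih : ∀ L ⊂ A, Good G L → Concl G L)
    (h3 : ∃ a ∈ A, ∃ b ∈ A, ∃ c ∈ A, ¬ Leaf G A a ∧ ¬ Leaf G A b ∧ ¬ Leaf G A c ∧
      a ≠ b ∧ a ≠ c ∧ b ≠ c) {v : V} (hv : v ∈ A) (hv' : ¬ Leaf G A v) :
    ∃ t D E Y, Atom G A v t D E Y := by
  obtain ⟨R, hRS, hR, t, htR, htW, hRW⟩ := hA.descent2 (CutV G A) _ (cut_nb htri hv)
    (exists_U_nb htri hA wh hwh h3 hv hv')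
  have hRm : ∀ r ∈ R, r ∈ A ∧ G.Adj v r ∧ ¬ Leaf G A r := fun r hr => mem_filter.1 (hRS hr)
  obtain ⟨htA, hvt, htL⟩ := hRm t htR
  have hvR : v ∈ A \ R := mem_sdiff.2 ⟨hv, fun h => G.irrefl (hRm v h).2.1⟩
  -- a neighbour of `t` away from `v`
  have hp : ∃ p ∈ A \ R, G.Adj t p ∧ ¬ Reach G (A \ R) v p := by
    obtain ⟨p, hp, q, hq, htp, htq, hpq⟩ := hR.2 t htR
    by_cases h1 : Reach G (A \ R) v p
    · exact ⟨q, hq, htq, fun h2 => hpq (h1.symm.trans h2)⟩
    · exact ⟨p, hp, htp, h1⟩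
  obtain ⟨p, hp, htp, hvp⟩ := hp
  have hpL : ¬ Leaf G A p := by
    intro hl
    apply htW
    refine ⟨htA, p, by simp [hl.1, htp.ne'], v, by simp [hv, hvt.ne], htp, hvt.symm, ?_⟩
    intro hr
    have := hr.eq_of_isolated (by
      intro b hb hpb
      exact (mem_sdiff.1 hb).2 (by simp [hl.unique (mem_sdiff.1 hb).1 htA hpb htp.symm]))
    exact hv' (this ▸ hl)
  set Y₀ := R.erase t with hY₀
  have hY₀W : ∀ y ∈ Y₀, CutV G A y := fun y hy => hRW y (mem_erase.1 hy).2 (mem_erase.1 hy).1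
  have hi1 := indep_wh wh hwh hY₀W (erase_subset _ _) (fun r hr => (hRm r hr).2.2)
  have hnr : ∀ x, ¬ Leaf G A x → ∀ s ∈ Y₀.image wh, ¬ Reach G (A \ R) s x := by
    intro x hx s hs hr
    obtain ⟨y, hy, rfl⟩ := mem_image.1 hs
    have := wh_isolated wh hwh (hY₀W y hy) sdiff_subset (by simp [(mem_erase.1 hy).2]) hr
    exact hx (this ▸ (hwh y (hY₀W y hy)).2)
  have hi2 := hi1.insert hvR (hnr v hv')
  have hnr2 : ∀ s ∈ insert v (Y₀.image wh), ¬ Reach G (A \ R) s p := by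
    intro s hs
    rcases mem_insert.1 hs with rfl | hs
    · exact hvp
    · exact hnr p hpL s hs
  have hi3 := hi2.insert hp hnr2
  have hcov := hi3.cover (by
    rw [hA.unm R hR, card_insert_of_notMem (fun h => hnr2 p h (Reach.refl _ _)),
      card_insert_of_notMem (fun h => hnr v hv' v h (Reach.refl _ _)),
      card_image_of_injOn (wh_inj wh hwh hY₀W), hY₀, card_erase_of_mem htR]
    have : 0 < R.card := card_pos.2 ⟨t, htR⟩
    omega)
  set D := (A \ R).filter (Reach G (A \ R) p) with hD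
  have hDm : ∀ x, x ∈ D ↔ (x ∈ A ∧ x ∉ R) ∧ Reach G (A \ R) p x := by
    intro x
    simp [hD]
  set Y := Y₀.filter (fun y => ∃ d ∈ D, G.Adj y d) with hY
  have hYm : ∀ y, y ∈ Y ↔ (y ≠ t ∧ y ∈ R) ∧ ∃ d ∈ D, G.Adj y d := by
    intro y
    simp only [hY, hY₀, mem_filter, mem_erase]
  have hYW : ∀ y ∈ Y, CutV G A y := fun y hy => hY₀W y (mem_filter.1 hy).1
  set Z := Y.image wh with hZ
  set E := A.filter (fun x => x ∉ D ∧ x ∉ Y ∧ x ∉ Z ∧ x ≠ t) with hE
  have hEm : ∀ x, x ∈ E ↔ x ∈ A ∧ x ∉ D ∧ x ∉ Y ∧ x ∉ Z ∧ x ≠ t := fun x => mem_filter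
  have hZL : ∀ a ∈ Z, Leaf G A a ∧ ∃ y ∈ Y, a = wh y ∧ G.Adj a y := by
    intro a ha
    obtain ⟨y, hy, rfl⟩ := mem_image.1 ha
    exact ⟨(hwh y (hYW y hy)).2, y, hy, rfl, (hwh y (hYW y hy)).1.symm⟩
  have hpD : p ∈ D := (hDm p).2 ⟨mem_sdiff.1 hp, Reach.refl _ _⟩
  have hvD : v ∉ D := fun h => hvp ((hDm v).1 h).2.symm
  have hvE : v ∈ E := (hEm v).2 ⟨hv, hvD, fun h => (mem_sdiff.1 hvR).2 ((hYm v).1 h).1.2,
    fun h => hv' (hZL v h).1, hvt.ne⟩
  have hDcl : ∀ a ∈ D, ∀ b ∈ A \ R, G.Adj a b → b ∈ D := by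
    intro a ha b hb hab
    obtain ⟨h1, h2⟩ := (hDm a).1 ha
    exact (hDm b).2 ⟨mem_sdiff.1 hb, h2.trans (Reach.step (mem_sdiff.2 h1) hb hab)⟩
  have heDE : ∀ a ∈ D, ∀ b ∈ E, ¬ G.Adj a b := by
    intro a ha b hb hab
    obtain ⟨h1, h2, h3, h4, h5⟩ := (hEm b).1 hb
    by_cases hbR : b ∈ R
    · exact h3 ((hYm b).2 ⟨⟨h5, hbR⟩, a, ha, hab.symm⟩)
    · exact h2 (hDcl a ha b (mem_sdiff.2 ⟨h1, hbR⟩) hab)
  have hDZ : ∀ a ∈ D, a ∉ Z := by
    intro a ha haZ
    obtain ⟨hl, y, hy, rfl, -⟩ := hZL a haZ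
    have := wh_isolated wh hwh (hYW y hy) sdiff_subset (by simp [((hYm y).1 hy).1.2])
      ((hDm _).1 ha).2.symm
    exact hpL (this ▸ hl)
  have heZ : ∀ a ∈ Z, ∀ b ∈ A, G.Adj a b → b ∈ Y := by
    intro a ha b hb hab
    obtain ⟨hl, y, hy, -, hay⟩ := hZL a ha
    rw [hl.unique hb (hYW y hy).1 hab hay]
    exact hy
  have hcD : ∀ a ∈ D, Reach G D p a := fun a ha => ((hDm a).1 ha).2.restrict hpD hDcl
  have hY₀E : ∀ y ∈ R, y ≠ t → y ∉ Y → y ∈ E := by
    intro y hy hyt hyY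
    exact (hEm y).2 ⟨(hRm y hy).1, fun h => ((hDm y).1 h).1.2 hy, hyY,
      fun h => (hRm y hy).2.2 (hZL y h).1, hyt⟩
  have hcE : ∀ e ∈ E, Reach G E v e := by
    intro e he
    obtain ⟨h1, h2, h3, h4, h5⟩ := (hEm e).1 he
    by_cases heR : e ∈ R
    · exact Reach.step hvE he (hRm e heR).2.1
    · obtain ⟨s, hs, hr⟩ := hcov e (mem_sdiff.2 ⟨h1, heR⟩)
      rcases mem_insert.1 hs with rfl | hs
      · exact absurd ((hDm e).2 ⟨⟨h1, heR⟩, hr⟩) h2
      rcases mem_insert.1 hs with rfl | hs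
      · refine (hr.closed (fun x => x ∈ E ∧ Reach G E s x) ⟨hvE, Reach.refl _ _⟩ ?_).2
        intro a ha b hb hab hP
        have hbE : b ∈ E := by
          refine (hEm b).2 ⟨(mem_sdiff.1 hb).1, fun h => heDE b h a hP.1 hab.symm,
            fun h => (mem_sdiff.1 hb).2 ((hYm b).1 h).1.2, fun h => ?_,
            fun h => (mem_sdiff.1 hb).2 (h ▸ htR)⟩
          exact (mem_sdiff.1 ha).2 ((hYm a).1 (heZ b h a (mem_sdiff.1 ha).1 hab.symm)).1.2
        exact ⟨hbE, hP.2.trans (Reach.step hP.1 hbE hab)⟩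
      · obtain ⟨y, hy, rfl⟩ := mem_image.1 hs
        have hy' := mem_erase.1 hy
        have := wh_isolated wh hwh (hY₀W y hy) sdiff_subset (by simp [hy'.2]) hr
        subst this
        have hyY : y ∉ Y := fun h => h4 (mem_image_of_mem wh h)
        have hyE := hY₀E y hy'.2 hy'.1 hyY
        exact (Reach.step hvE hyE (hRm y hy'.2).2.1).trans
          (Reach.step hyE he (hwh y (hY₀W y hy)).1)
  have htD : t ∉ D := fun h => ((hDm t).1 h).1.2 htR
  have htE : t ∉ E := fun h => ((hEm t).1 h).2.2.2.2 rfl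
  have htY : t ∉ Y := fun h => ((hYm t).1 h).1.1 rfl
  have htZ : t ∉ Z := fun h => htL (hZL t h).1
  have hcover : ∀ x, x ∈ A ↔ (x ∈ D ∨ x ∈ E ∨ x ∈ Y ∨ x ∈ Z ∨ x = t) := by
    intro x
    constructor
    · intro hx
      have := hEm x
      tauto
    · rintro (h | h | h | h | h)
      · exact ((hDm x).1 h).1.1
      · exact ((hEm x).1 h).1
      · exact (hYW x h).1
      · exact (hZL x h).1.1
      · exact h ▸ htA
  have dDE : Disjoint D E := Finset.disjoint_left.2 (fun a ha ha' => ((hEm a).1 ha').2.1 ha)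
  have dDY : Disjoint D Y :=
    Finset.disjoint_left.2 (fun a ha ha' => ((hDm a).1 ha).1.2 ((hYm a).1 ha').1.2)
  have dDZ : Disjoint D Z := Finset.disjoint_left.2 hDZ
  have dEY : Disjoint E Y := Finset.disjoint_left.2 (fun a ha => ((hEm a).1 ha).2.2.1)
  have dEZ : Disjoint E Z := Finset.disjoint_left.2 (fun a ha => ((hEm a).1 ha).2.2.2.1)
  have dYZ : Disjoint Y Z :=
    Finset.disjoint_left.2 (fun a ha ha' => (hYW a ha).not_leaf (hZL a ha').1)
  have hcard : Z.card = Y.card := card_image_of_injOn (wh_inj wh hwh hYW)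
  have hyZ : ∀ y ∈ Y, ∃ a ∈ Z, G.Adj y a ∧ ∀ b ∈ A, G.Adj a b → b = y := by
    intro y hy
    have := hwh y (hYW y hy)
    exact ⟨wh y, mem_image_of_mem wh hy, this.1,
      fun b hb hab => this.2.unique hb (hYW y hy).1 hab this.1.symm⟩
  have hYv : ∀ y ∈ Y, G.Adj v y := fun y hy => (hRm y ((hYm y).1 hy).1.2).2.1
  have s1 : Split G A D E Y Z t v := ⟨hcover, dDE, dDY, dDZ, dEY, dEZ, dYZ, htD, htE, htY, htZ,
    heDE, heZ, hcard, hyZ, fun y hy => ⟨v, hvE, (hYv y hy).symm⟩, hvE, hvt.symm, hcE⟩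
  have s2 : Split G A E D Y Z t p := ⟨fun x => by rw [hcover x]; tauto, dDE.symm, dEY, dEZ, dDY,
    dDZ, dYZ, htE, htD, htY, htZ, fun a ha b hb hab => heDE b hb a ha hab.symm, heZ, hcard, hyZ,
    fun y hy => ((hYm y).1 hy).2, hpD, htp, hcD⟩
  have hYne : Y.Nonempty := by
    by_contra hcon
    rw [Finset.not_nonempty_iff_eq_empty] at hcon
    apply htW
    refine ⟨htA, p, by simp [(mem_sdiff.1 hp).1, htp.ne'], v, by simp [hv, hvt.ne], htp,
      hvt.symm, ?_⟩
    intro hr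
    apply hvD
    refine hr.closed (fun x => x ∈ D) hpD ?_
    intro a _ b hb hab ha
    rcases (hcover b).1 (mem_sdiff.1 hb).1 with h | h | h | h | h
    · exact h
    · exact absurd hab (heDE a ha b h)
    · simp [hcon] at h
    · simp [hZ, hcon] at h
    · exact absurd (by simp [h]) (mem_sdiff.1 hb).2
  obtain ⟨l1, b1⟩ := s1.concl hA ih (Or.inl hYne)
  obtain ⟨l2, b2⟩ := s2.concl hA ih (Or.inl hYne)
  have hW : ∀ {D' E' : Finset V} {z : V}, Split G A D' E' Y Z t z →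
      (∀ a ∈ D', ∀ b ∈ D', Leaf G A a → Leaf G A b → a = b) →
      ∀ a ∈ D', ∀ b ∈ D', CutV G A a → CutV G A b → a = b := by
    intro D' E' z s l
    have key : ∀ a ∈ D', CutV G A a → wh a ∈ D' := by
      intro a ha hWa
      have h1 := hwh a hWa
      rcases (s.cover (wh a)).1 h1.2.1 with h | h | h | h | h
      · exact h
      · exact absurd h1.1 (s.eDE a ha _ h)
      · exact absurd h1.2 (hYW _ h).not_leaf
      · exact absurd (heZ _ h a hWa.1 h1.1.symm) (Finset.disjoint_left.1 s.dDY ha)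
      · exact absurd (h ▸ h1.2) htL
    intro a ha b hb hWa hWb
    have h1 := hwh a hWa
    have h2 := hwh b hWb
    have := l _ (key a ha hWa) _ (key b hb hWb) h1.2 h2.2
    rw [← this] at h2
    exact h1.2.unique hWa.1 hWb.1 h1.1.symm h2.1.symm
  refine ⟨t, D, E, Y, htA, htW, htL, hvt, hvE, hYne, fun y hy => ⟨hYW y hy, hYv y hy⟩, ?_, heDE,
    htD, htE, fun x hx => ((hDm x).1 hx).1.1, fun x hx => ((hEm x).1 hx).1, hW s1 l1, hW s2 l2,
    b1, b2, fun a ha b hb => (hcD a ha).symm.trans (hcD b hb),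
    fun a ha b hb => (hcE a ha).symm.trans (hcE b hb)⟩
  intro x hx hx'
  rcases (hcover x).1 hx with h | h | h | h | h
  · tauto
  · tauto
  · tauto
  · exact absurd (hZL x h).1 hx'
  · tauto

omit hA hwh in
theorem no_three_aux (hat : ∀ v ∈ A, ¬ Leaf G A v → ∃ t D E Y, Atom G A v t D E Y)
    {a b c : V} (ha : CutV G A a) (hb : CutV G A b) (hc : CutV G A c) (hab : G.Adj a b)
    (hca : c ≠ a) (hcb : c ≠ b) (hac : ¬ G.Adj a c) : False := by
  -- position of non-adjacent cut vertices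
  have alpha : ∀ {w t : V} {D E Y : Finset V}, Atom G A w t D E Y → CutV G A w →
      ∀ x, CutV G A x → x ≠ w → ¬ G.Adj w x → x ∈ D := by
    intro w t D E Y h hw x hx hxw hwx
    rcases h.cov x hx.1 hx.not_leaf with h1 | h1 | h1 | h1
    · exact h1
    · exact absurd (h.WE x h1 w h.vE hx hw) hxw
    · exact absurd (h.YW x h1).2 hwx
    · exact absurd (h1 ▸ hx) h.tW
  have hcb' : G.Adj c b := by
    obtain ⟨t, D, E, Y, h⟩ := hat c hc.1 hc.not_leaf
    by_contra hcon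
    have h1 := alpha h hc a ha hca.symm (fun h => hac h.symm)
    have h2 := alpha h hc b hb hcb.symm hcon
    exact hab.ne (h.WD a h1 b h2 ha hb)
  have beta : ∀ {u t : V} {D E Y : Finset V}, Atom G A u t D E Y →
      ∀ x y, CutV G A x → CutV G A y → G.Adj x y → ¬ G.Adj u y → G.Adj u x := by
    intro u t D E Y h x y hx hy hxy huy
    by_contra hux
    have f : ∀ x, CutV G A x → ¬ G.Adj u x → x ∈ D ∨ x ∈ E := by
      intro x hx hux
      rcases h.cov x hx.1 hx.not_leaf with h1 | h1 | h1 | h1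
      · exact Or.inl h1
      · exact Or.inr h1
      · exact absurd (h.YW x h1).2 hux
      · exact absurd (h1 ▸ hx) h.tW
    rcases f x hx hux with h1 | h1 <;> rcases f y hy huy with h2 | h2
    · exact hxy.ne (h.WD x h1 y h2 hx hy)
    · exact h.eDE x h1 y h2 hxy
    · exact h.eDE y h2 x h1 hxy.symm
    · exact hxy.ne (h.WE x h1 y h2 hx hy)
  obtain ⟨t, D, E, Y, h⟩ := hat a ha.1 ha.not_leaf
  have hcD : c ∈ D := alpha h ha c hc hca hac
  have gamma : ∀ u ∈ A, ¬ Leaf G A u → ¬ CutV G A u → (G.Adj a u ∨ G.Adj c u) → u = t := by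
    intro u hu huL huW hadj
    obtain ⟨t', D', E', Y', h'⟩ := hat u hu huL
    have hub : ¬ G.Adj u b := by
      intro hub
      rcases hadj with h1 | h1
      · exact htri a u b h1 hub hab
      · exact htri c u b h1 hub hcb'
    have hua := beta h' a b ha hb hab hub
    have huc := beta h' c b hc hb hcb' hub
    rcases h.cov u hu huL with h1 | h1 | h1 | h1
    · exact absurd hua (h.eDE u h1 a h.vE)
    · exact absurd huc.symm (h.eDE c hcD u h1)
    · exact absurd (h.YW u h1).1 huW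
    · exact h1
  obtain ⟨tb, Db, Eb, Yb, hb'⟩ := hat b hb.1 hb.not_leaf
  have hne : tb ≠ t := by
    intro he
    exact htri a b t hab (he ▸ hb'.vt) h.vt
  have fin : ∀ (x : V) (X : Finset V), CutV G A x → x ∈ X → X ⊆ A → t ∉ X →
      (∀ u, G.Adj x u → G.Adj a u ∨ G.Adj c u) →
      (∀ a ∈ X, ∀ b ∈ X, CutV G A a → CutV G A b → a = b) → Reach G X x tb → False := by
    intro x X hx hxX hXA htX hor hWX hr
    rcases reach_of_nb hx.1 hXA (by
      intro s hs hxs
      by_contra hcon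
      by_cases hsW : CutV G A s
      · exact hxs.ne (hWX x hxX s hs hx hsW)
      · exact htX (gamma s (hXA hs) hcon hsW (hor s hxs) ▸ hs)) hr with h1 | h1
    · exact hb'.tW (h1 ▸ hx)
    · exact hb'.tL h1.2
  rcases h.cov tb hb'.tA hb'.tL with h1 | h1 | h1 | h1
  · exact fin c D hc hcD h.DA h.tD (fun u hu => Or.inr hu) h.WD (h.cD c hcD tb h1)
  · exact fin a E ha h.vE h.EA h.tE (fun u hu => Or.inl hu) h.WE (h.cE a h.vE tb h1)
  · exact hb'.tW (h.YW tb h1).1
  · exact hne h1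

omit hA hwh in
theorem no_three (hat : ∀ v ∈ A, ¬ Leaf G A v → ∃ t D E Y, Atom G A v t D E Y)
    {x y z : V} (hx : CutV G A x) (hy : CutV G A y) (hz : CutV G A z) :
    x = y ∨ x = z ∨ y = z := by
  by_contra hcon
  push Not at hcon
  obtain ⟨hxy, hxz, hyz⟩ := hcon
  obtain ⟨t, D, E, Y, h⟩ := hat x hx.1 hx.not_leaf
  obtain ⟨b, hb⟩ := h.Yne
  obtain ⟨hbW, hxb⟩ := h.YW b hb
  have : ∃ c, CutV G A c ∧ c ≠ x ∧ c ≠ b := by
    by_cases hyb : y = b
    · exact ⟨z, hz, hxz.symm, fun h => hyz (hyb.trans h.symm)⟩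
    · exact ⟨y, hy, hxy.symm, hyb⟩
  obtain ⟨c, hc, hcx, hcb⟩ := this
  by_cases hxc : G.Adj x c
  · exact no_three_aux htri hat hbW hx hc hxb.symm hcb hcx (fun h => htri x b c hxb h hxc)
  · exact no_three_aux htri hat hx hbW hc hxb hcx hcb hxc

omit hA hwh in
theorem no_bad (hat : ∀ v ∈ A, ¬ Leaf G A v → ∃ t D E Y, Atom G A v t D E Y)
    {C : Finset V} (hC : C ⊆ A) (hbad : Bad G C) : False := by
  have hnW : ∀ a ∈ C, ¬ CutV G A a := by
    intro a ha hW
    obtain ⟨p, hp, q, hq, hpq, -, -, hap, haq⟩ := hbad.far a ha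
    obtain ⟨t, D, E, Y, h⟩ := hat p (hC hp) (hbad.not_leaf hC hp)
    obtain ⟨t', D', E', Y', h'⟩ := hat q (hC hq) (hbad.not_leaf hC hq)
    obtain ⟨y, hy⟩ := h.Yne
    obtain ⟨y', hy'⟩ := h'.Yne
    obtain ⟨h1, h2⟩ := h.YW y hy
    obtain ⟨h3, h4⟩ := h'.YW y' hy'
    rcases no_three htri hat hW h1 h3 with h5 | h5 | h5
    · exact hap (h5 ▸ h2.symm)
    · exact haq (h5 ▸ h4.symm)
    · exact htri p q y hpq (h5 ▸ h4) h2
  obtain ⟨v, hv⟩ := hbad.ne
  obtain ⟨t, D, E, Y, h⟩ := hat v (hC hv) (hbad.not_leaf hC hv)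
  rcases hbad.side (t := t) (D := D) (E := E) (by
    intro x hx
    rcases h.cov x (hC hx) (hbad.not_leaf hC hx) with h1 | h1 | h1 | h1
    · tauto
    · tauto
    · exact absurd (h.YW x h1).1 (hnW x hx)
    · tauto) h.eDE with h1 | h1
  · exact h.bD C h1 hbad
  · exact h.bE C h1 hbad

end Whisk

theorem leaf_nb {A : Finset V} (hA : Good G A) {a b c : V} (ha : Leaf G A a) (hb : b ∈ A)
    (hc : c ∈ A) (hab : a ≠ b) (hac : a ≠ c) (hbc : b ≠ c) :
    ∃ w, CutV G A w ∧ G.Adj a w := by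
  obtain ⟨haA, u, hu, hau, hu'⟩ := id ha
  refine ⟨u, ⟨hu, ?_⟩, hau⟩
  have : ∃ q ∈ A, G.Adj u q ∧ q ≠ a := by
    by_contra hcon
    push Not at hcon
    have key : ∀ x ∈ A, x = a ∨ x = u := by
      intro x hx
      refine (hA.conn haA hx).closed (fun x => x = a ∨ x = u) (Or.inl rfl) ?_
      intro y _ z hz hyz hy
      rcases hy with rfl | rfl
      · exact Or.inr (hu' z hz hyz)
      · exact Or.inl (hcon z hz hyz)
    rcases key b hb with h1 | h1 <;> rcases key c hc with h2 | h2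
    · exact hab h1.symm
    · exact hab h1.symm
    · exact hac h2.symm
    · exact hbc (h1.trans h2.symm)
  obtain ⟨q, hq, huq, hqa⟩ := this
  refine ⟨a, by simp [haA, hau.ne], q, by simp [hq, huq.ne'], hau.symm, huq, ?_⟩
  intro hr
  apply hqa
  apply hr.eq_of_isolated
  intro x hx hax
  exact (mem_sdiff.1 hx).2 (by simp [hu' x (mem_sdiff.1 hx).1 hax])

theorem leaf_nb_ne {A : Finset V} (hA : Good G A) {a b c w : V} (ha : Leaf G A a)
    (hb : Leaf G A b) (hc : Leaf G A c) (hab : a ≠ b) (hac : a ≠ c) (hbc : b ≠ c)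
    (hw : CutV G A w) (haw : G.Adj a w) (hbw : G.Adj b w) : False := by
  have hcw : c ≠ w := fun h => hw.not_leaf (h ▸ hc)
  have iso : ∀ x, Leaf G A x → G.Adj x w → ∀ y, Reach G (A \ {w}) x y → y = x := by
    intro x hx hxw y hr
    apply hr.eq_of_isolated
    intro z hz hxz
    exact (mem_sdiff.1 hz).2 (by simp [hx.unique (mem_sdiff.1 hz).1 hw.1 hxz hxw])
  have i1 : Indep G (A \ {w}) {a} := ⟨by simp [ha.1, haw.ne], by simp⟩
  have i2 := i1.insert (x := b) (by simp [hb.1, hbw.ne]) (by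
    intro t ht hr
    rw [mem_singleton] at ht
    subst ht
    exact hab (iso t ha haw b hr).symm)
  have i3 := i2.insert (x := c) (by simp [hc.1, hcw]) (by
    intro t ht hr
    simp only [mem_insert, mem_singleton] at ht
    rcases ht with rfl | rfl
    · exact hbc (iso t hb hbw c hr).symm
    · exact hac (iso t ha haw c hr).symm)
  have := le_cc i3
  rw [hA.unm _ hw.cut, card_insert_of_notMem (by simp [hac.symm, hbc.symm]),
    card_insert_of_notMem (by simp [hab.symm])] at this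
  simp at this

theorem concl_of_good (htri : ∀ a b c, G.Adj a b → G.Adj b c → ¬ G.Adj a c) (A : Finset V) :
    Good G A → Concl G A := by
  induction A using Finset.strongInduction with
  | H A ih =>
    intro hA
    by_cases hex : ∃ w, CutV G A w ∧ ∀ l, G.Adj w l → ¬ Leaf G A l
    · obtain ⟨w, hw, hno⟩ := hex
      exact concl_of_cutV hA ih hw hno
    · push Not at hex
      choose! wh hwh using hex
      constructor
      · intro C hC hbad
        obtain ⟨a, ha⟩ := hbad.ne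
        obtain ⟨p, hp, q, hq, hpq, hap, haq⟩ := hbad.two a ha
        exact no_bad htri (fun v hv hv' => exists_atom htri hA wh hwh ih
          ⟨a, hC ha, p, hC hp, q, hC hq, hbad.not_leaf hC ha, hbad.not_leaf hC hp,
            hbad.not_leaf hC hq, hap.ne, haq.ne, hpq⟩ hv hv') hC hbad
      · intro a b c ha hb hc
        by_contra hcon
        push Not at hcon
        obtain ⟨hab, hac, hbc⟩ := hcon
        obtain ⟨x, hx, hax⟩ := leaf_nb hA ha hb.1 hc.1 hab hac hbc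
        obtain ⟨y, hy, hby⟩ := leaf_nb hA hb ha.1 hc.1 hab.symm hbc hac
        obtain ⟨z, hz, hcz⟩ := leaf_nb hA hc ha.1 hb.1 hac.symm hbc.symm hab
        have hxy : x ≠ y := fun h => leaf_nb_ne hA ha hb hc hab hac hbc hx hax (h ▸ hby)
        have hxz : x ≠ z := fun h =>
          leaf_nb_ne hA ha hc hb hac hab hbc.symm hx hax (h ▸ hcz)
        have hyz : y ≠ z := fun h =>
          leaf_nb_ne hA hb hc ha hbc hab.symm hac.symm hy hby (h ▸ hcz)
        rcases no_three htri (fun v hv hv' => exists_atom htri hA wh hwh ih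
          ⟨x, hx.1, y, hy.1, z, hz.1, hx.not_leaf, hy.not_leaf, hz.not_leaf, hxy, hxz, hyz⟩
            hv hv') hx hy hz with h | h | h
        · exact hxy h
        · exact hxz h
        · exact hyz h

end Pool.Agent.P.MP_e66ac9_al
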