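import Pool.Agent.P.MP_e66ac9_al.Defs
import Pool.Agent.P.MP_e66ac9_al.Main
import Pool.Agent.P.MP_e66ac9_al.Bridge

set_option autoImplicit false

namespace Pool.Agent.P.MP_e66ac9_al

open Finset IsLocalRing RingTheory.Sequence MvPolynomial

theorem exists_regular_of_cm (R : Type) [CommRing R] [IsLocalRing R] [IsNoetherianRing R]
    (h : (localDepth R : WithBot ℕ∞) = ringKrullDim R) :
    ∃ rs : List R, (∀ r ∈ rs, r ∈ maximalIdeal R) ∧ IsRegular R rs ∧
      (rs.length : WithBot ℕ∞) = ringKrullDim R := by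
  have hne : localDepth R ≠ ⊤ := by
    intro ht
    rw [ht] at h
    exact ringKrullDim_ne_top (R := R) h.symm
  obtain ⟨d, hd⟩ := ENat.ne_top_iff_exists.1 hne
  have hle : ∀ rs : List R, (∀ r ∈ rs, r ∈ maximalIdeal R) → IsRegular R rs →
      (rs.length : ℕ∞) ≤ localDepth R := by
    intro rs h1 h2
    unfold localDepth
    exact le_iSup_of_le rs (le_iSup_of_le h1 (le_iSup_of_le h2 le_rfl))
  have : ∃ rs : List R, (∀ r ∈ rs, r ∈ maximalIdeal R) ∧ IsRegular R rs ∧ rs.length = d := by
    by_contra hcon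
    push Not at hcon
    have hlt : ∀ rs : List R, (∀ r ∈ rs, r ∈ maximalIdeal R) → IsRegular R rs →
        rs.length < d := by
      intro rs h1 h2
      have h3 := hle rs h1 h2
      rw [← hd] at h3
      exact lt_of_le_of_ne (by exact_mod_cast h3) (hcon rs h1 h2)
    have h0 := hlt [] (by simp) (IsRegular.nil R R)
    have h4 : localDepth R ≤ ((d - 1 : ℕ) : ℕ∞) := by
      unfold localDepth
      refine iSup_le fun rs => iSup_le fun h1 => iSup_le fun h2 => ?_
      have := hlt rs h1 h2
      exact_mod_cast (by omega : rs.length ≤ d - 1)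
    rw [← hd] at h4
    have h5 : d ≤ d - 1 := by exact_mod_cast h4
    simp at h0
    omega
  obtain ⟨rs, h1, h2, h3⟩ := this
  refine ⟨rs, h1, h2, ?_⟩
  rw [← h, ← hd, h3]
  rfl

section Concrete

variable (K : Type) [Field K] {n : ℕ} (G : SimpleGraph (Fin n))

/-- parametrisation of a stratum -/
noncomputable def par (Z : Finset (Fin n)) (l : Fin n → Fin n) (F : Finset (Fin n)) :
    MvPolynomial (Fin n ⊕ Fin n) K →ₐ[K] MvPolynomial (Fin n ⊕ Fin n) K :=
  aeval (Sum.elim (fun i => if i ∈ Z then 0 else X (Sum.inl i))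
    (fun i => if i ∈ Z ∨ l i ∈ F then 0 else X (Sum.inl i) * X (Sum.inr (l i))))

/-- the homogeneous maximal ideal -/
noncomputable def irr (n : ℕ) : Ideal (MvPolynomial (Fin n ⊕ Fin n) K) :=
  RingHom.ker (constantCoeff : MvPolynomial (Fin n ⊕ Fin n) K →+* K)

instance : (irr K n).IsMaximal :=
  RingHom.ker_isMaximal_of_surjective _ (fun c => ⟨C c, by simp⟩)

theorem irr_le (q : Ideal (MvPolynomial (Fin n ⊕ Fin n) K)) (h : ∀ i, X i ∈ q) : irr K n ≤ q := by
  intro f hf
  have h1 : f ∈ Ideal.span (X '' (Set.univ : Set (Fin n ⊕ Fin n))) := by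
    rw [mem_ideal_span_X_image]
    intro m hm
    by_contra hcon
    push Not at hcon
    have : m = 0 := by
      ext i
      exact hcon i (Set.mem_univ _)
    rw [this, mem_support_iff] at hm
    exact hm hf
  refine (Ideal.span_le.2 ?_) h1
  rintro _ ⟨i, -, rfl⟩
  exact h i

theorem ker_par_le (Z : Finset (Fin n)) (l : Fin n → Fin n) (F : Finset (Fin n)) :
    RingHom.ker (par K Z l F) ≤ irr K n := by
  intro f hf
  have h1 : (constantCoeff : MvPolynomial (Fin n ⊕ Fin n) K →+* K).comp (par K Z l F).toRingHom =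
      constantCoeff := by
    apply MvPolynomial.ringHom_ext
    · intro c
      simp [par]
    · rintro (i | i)
      · simp only [par, RingHom.comp_apply, AlgHom.toRingHom_eq_coe, RingHom.coe_coe, aeval_X,
          Sum.elim_inl]
        split_ifs <;> simp
      · simp only [par, RingHom.comp_apply, AlgHom.toRingHom_eq_coe, RingHom.coe_coe, aeval_X,
          Sum.elim_inr]
        split_ifs <;> simp
  change constantCoeff f = 0
  rw [← h1, RingHom.comp_apply]
  have : (par K Z l F).toRingHom f = 0 := hf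
  rw [this, map_zero]

theorem det_mem {i j : Fin n} (h : G.Adj i j) :
    (X (Sum.inl i) * X (Sum.inr j) - X (Sum.inl j) * X (Sum.inr i) :
      MvPolynomial (Fin n ⊕ Fin n) K) ∈ binomialEdgeIdeal K G := by
  rcases lt_or_gt_of_ne h.ne with h1 | h1
  · exact Ideal.subset_span ⟨i, j, h, h1, rfl⟩
  · rw [← Ideal.neg_mem_iff, neg_sub]
    exact Ideal.subset_span ⟨j, i, h.symm, h1, rfl⟩

theorem le_ker_par {Z : Finset (Fin n)} {l : Fin n → Fin n} (F : Finset (Fin n))
    (hc : Compat G Z l) : binomialEdgeIdeal K G ≤ RingHom.ker (par K Z l F) := by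
  unfold binomialEdgeIdeal
  rw [Ideal.span_le]
  rintro f ⟨i, j, hij, -, rfl⟩
  change par K Z l F _ = 0
  simp only [par, map_sub, map_mul, aeval_X, Sum.elim_inl, Sum.elim_inr]
  by_cases hi : i ∈ Z
  · simp [hi]
  by_cases hj : j ∈ Z
  · simp [hj]
  have := hc i j hij hi hj
  by_cases hF : l j ∈ F
  · simp [this, hF]
  · simp only [hi, hj, this, hF, if_false, or_self]
    ring

theorem ker_par_mono {Z Z' : Finset (Fin n)} (l : Fin n → Fin n) {F F' : Finset (Fin n)}
    (hZ : Z ⊆ Z') (hF : F ⊆ F') : RingHom.ker (par K Z l F) ≤ RingHom.ker (par K Z' l F') := by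
  intro f hf
  let ψ : MvPolynomial (Fin n ⊕ Fin n) K →ₐ[K] MvPolynomial (Fin n ⊕ Fin n) K :=
    aeval (Sum.elim (fun i => if i ∈ Z' then 0 else X (Sum.inl i))
      (fun i => if i ∈ F' then 0 else X (Sum.inr i)))
  have h1 : ψ.comp (par K Z l F) = par K Z' l F' := by
    apply MvPolynomial.algHom_ext
    rintro (i | i)
    · simp only [par, AlgHom.comp_apply, aeval_X, Sum.elim_inl]
      by_cases hi : i ∈ Z
      · simp [hi, hZ hi]
      · simp [hi, ψ]
    · simp only [par, AlgHom.comp_apply, aeval_X, Sum.elim_inr]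
      by_cases hi : i ∈ Z ∨ l i ∈ F
      · have : i ∈ Z' ∨ l i ∈ F' := hi.imp (fun h => hZ h) (fun h => hF h)
        simp [hi, this]
      · rw [if_neg hi]
        by_cases h2 : i ∈ Z' <;> by_cases h3 : l i ∈ F' <;> simp [ψ, h2, h3]
  change par K Z' l F' f = 0
  rw [← h1, AlgHom.comp_apply]
  have : par K Z l F f = 0 := hf
  rw [this, map_zero]

theorem ker_par_const (Z : Finset (Fin n)) (l : Fin n → Fin n) (v : Fin n) :
    RingHom.ker (par K Z l ∅) ≤ RingHom.ker (par K Z (fun _ => v) ∅) := by
  intro f hf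
  let ψ : MvPolynomial (Fin n ⊕ Fin n) K →ₐ[K] MvPolynomial (Fin n ⊕ Fin n) K :=
    aeval (Sum.elim (fun i => X (Sum.inl i)) (fun _ => X (Sum.inr v)))
  have h1 : ψ.comp (par K Z l ∅) = par K Z (fun _ => v) ∅ := by
    apply MvPolynomial.algHom_ext
    rintro (i | i)
    · simp only [par, AlgHom.comp_apply, aeval_X, Sum.elim_inl]
      by_cases hi : i ∈ Z
      · simp [hi]
      · simp [hi, ψ]
    · simp only [par, AlgHom.comp_apply, aeval_X, Sum.elim_inr]
      by_cases hi : i ∈ Z
      · simp [hi]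
      · simp [hi, ψ]
  change par K Z (fun _ => v) ∅ f = 0
  rw [← h1, AlgHom.comp_apply]
  have : par K Z l ∅ f = 0 := hf
  rw [this, map_zero]

theorem bei_le_irr : binomialEdgeIdeal K G ≤ irr K n :=
  (le_ker_par K G (Z := univ) (l := id) ∅ (fun _ _ _ h _ => absurd (mem_univ _) h)).trans
    (ker_par_le K _ _ _)

theorem unm_acc_of_cm (h : IsCohenMacaulay (MvPolynomial (Fin n ⊕ Fin n) K ⧸
      binomialEdgeIdeal K G)) :
    (∀ S, Cut G univ S → cc G (univ \ S) = S.card + cc G univ) ∧
      ∀ S, Cut G univ S → S.Nonempty → ∃ s ∈ S, Cut G univ (S.erase s) := by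
  let J := binomialEdgeIdeal K G
  let mk := Ideal.Quotient.mk J
  have hmk : Function.Surjective mk := Ideal.Quotient.mk_surjective
  have hker : RingHom.ker mk = J := Ideal.mk_ker
  let m : Ideal (MvPolynomial (Fin n ⊕ Fin n) K ⧸ J) := (irr K n).map mk
  have hcm : ∀ P : Ideal (MvPolynomial (Fin n ⊕ Fin n) K), J ≤ P → (P.map mk).comap mk = P := by
    intro P hP
    rw [Ideal.comap_map_of_surjective mk hmk, sup_eq_left]
    change RingHom.ker mk ≤ P
    rw [hker]
    exact hP
  have hm : m.IsMaximal := by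
    rcases Ideal.map_eq_top_or_isMaximal_of_surjective mk hmk
      (inferInstance : (irr K n).IsMaximal) with h1 | h1
    · exfalso
      have := hcm _ (bei_le_irr K G)
      rw [h1, Ideal.comap_top] at this
      exact (inferInstance : (irr K n).IsMaximal).ne_top this.symm
    · exact h1
  let R := Localization.AtPrime m
  let π : MvPolynomial (Fin n ⊕ Fin n) K →+* R := (algebraMap _ R).comp mk
  have key : ∀ P : Ideal (MvPolynomial (Fin n ⊕ Fin n) K), P.IsPrime → J ≤ P → P ≤ irr K n →
      (P.map π).IsPrime ∧ ∀ f, π f ∈ P.map π ↔ f ∈ P := by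
    intro P hP h1 h2
    have hp : (P.map mk).IsPrime := Ideal.map_isPrime_of_surjective hmk (by rw [hker]; exact h1)
    have hdisj : Disjoint (m.primeCompl : Set (MvPolynomial (Fin n ⊕ Fin n) K ⧸ J))
        (P.map mk : Set _) := by
      rw [Set.disjoint_left]
      intro a ha ha'
      exact ha (Ideal.map_mono h2 ha')
    rw [← Ideal.map_map]
    refine ⟨IsLocalization.isPrime_of_isPrime_disjoint m.primeCompl R _ hp hdisj, ?_⟩
    intro f
    have h3 := IsLocalization.under_map_of_isPrime_disjoint m.primeCompl R hp hdisj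
    constructor
    · intro hf
      have h4 : mk f ∈ P.map mk := by
        rw [← h3]
        exact hf
      rw [← hcm P h1]
      exact h4
    · intro hf
      exact Ideal.mem_map_of_mem _ (Ideal.mem_map_of_mem _ hf)
  have hmax : maximalIdeal R = (irr K n).map π := by
    rw [← Ideal.map_map]
    exact (Localization.AtPrime.map_eq_maximalIdeal (I := m)).symm
  have hkp : ∀ Z l F, Compat G Z l → ((RingHom.ker (par K Z l F)).map π).IsPrime ∧
      ∀ f, π f ∈ (RingHom.ker (par K Z l F)).map π ↔ par K Z l F f = 0 := by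
    intro Z l F hc
    exact key _ (RingHom.ker_isPrime _) (le_ker_par K G F hc) (ker_par_le K Z l F)
  have hXm : ∀ i, π (X i) ∈ maximalIdeal R := by
    intro i
    rw [hmax]
    apply Ideal.mem_map_of_mem
    change constantCoeff _ = 0
    simp
  have M : Model G R (fun i => π (X (Sum.inl i))) (fun i => π (X (Sum.inr i)))
      (fun Z l F => (RingHom.ker (par K Z l F)).map π) := by
    refine ⟨?_, fun i => hXm _, fun i => hXm _, ?_, fun Z l F hc => (hkp Z l F hc).1, ?_, ?_, ?_,
      fun Z l F Z' F' h1 h2 => Ideal.map_mono (ker_par_mono K l h1 h2),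
      fun Z l v => Ideal.map_mono (ker_par_const K Z l v)⟩
    · intro i j hij
      rw [← map_mul, ← map_mul, ← map_sub π]
      change algebraMap _ R (mk _) = 0
      rw [Ideal.Quotient.eq_zero_iff_mem.2 (det_mem K G hij), map_zero]
    · intro q h1 h2
      rw [hmax, Ideal.map_le_iff_le_comap]
      apply irr_le
      rintro (i | i)
      · exact h1 i
      · exact h2 i
    · intro Z l F i hc
      rw [(hkp Z l F hc).2]
      simp [par]
    · intro Z l F i hc
      rw [(hkp Z l F hc).2]
      simp only [par, aeval_X, Sum.elim_inr]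
      by_cases h1 : i ∈ Z ∨ l i ∈ F
      · simp [h1]
      · rw [if_neg h1]
        simp [h1]
    · intro Z l i j hc hi hj hl
      rw [← map_mul, ← map_mul, ← map_sub π, (hkp Z l ∅ hc).2]
      simp only [par, map_sub, map_mul, aeval_X, Sum.elim_inl, Sum.elim_inr, hi, hj,
        notMem_empty, or_self, if_false]
      have e : (X (Sum.inl i) * (X (Sum.inl j) * X (Sum.inr (l j))) -
          X (Sum.inl j) * (X (Sum.inl i) * X (Sum.inr (l i))) : MvPolynomial (Fin n ⊕ Fin n) K) =
          X (Sum.inl i) * X (Sum.inl j) * (X (Sum.inr (l j)) - X (Sum.inr (l i))) := by ring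
      rw [e]
      refine mul_ne_zero (mul_ne_zero (X_ne_zero _) (X_ne_zero _)) (sub_ne_zero.2 ?_)
      intro h1
      exact hl (Sum.inr_injective (X_injective h1)).symm
  obtain ⟨rs, h1, h2, h3⟩ := exists_regular_of_cm R (h.2 m)
  exact M.unm_acc rs h1 h2 h3

end Concrete

section Graph

variable {V : Type} [Fintype V] [DecidableEq V] {G : SimpleGraph V}

open Classical in
theorem good_component
    (hunm : ∀ S, Cut G univ S → cc G (univ \ S) = S.card + cc G univ)
    (hacc : ∀ S, Cut G univ S → S.Nonempty → ∃ s ∈ S, Cut G univ (S.erase s)) (v : V) :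
    Good G (univ.filter (Reach G univ v)) := by
  set A := univ.filter (Reach G univ v) with hA
  have hAm : ∀ x, x ∈ A ↔ Reach G univ v x := by
    intro x
    simp [hA]
  have hcl : ∀ a ∈ A, ∀ b, G.Adj a b → b ∈ A := fun a ha b hab =>
    (hAm b).2 (((hAm a).1 ha).trans (Reach.step (mem_univ _) (mem_univ _) hab))
  have hsplit : ∀ S, S ⊆ A → cc G (univ \ S) = cc G (A \ S) + cc G (univ \ A) := by
    intro S hS
    rw [← cc_union]
    · congr 1
      ext x
      have := @hS x
      simp only [mem_sdiff, mem_univ, true_and, mem_union]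
      tauto
    · rw [Finset.disjoint_left]
      intro a ha ha'
      exact (mem_sdiff.1 ha').2 (mem_sdiff.1 ha).1
    · intro a ha b hb hab
      exact (mem_sdiff.1 hb).2 (hcl a (mem_sdiff.1 ha).1 b hab)
  have hvA : v ∈ A := (hAm v).2 (Reach.refl _ _)
  have hc1 : cc G A = 1 := by
    apply le_antisymm
    · have := cc_le_of_cover (G := G) (B := A) (T := {v}) (fun x hx => ⟨v, by simp,
        ((hAm x).1 hx).restrict hvA (fun a ha b _ hab => hcl a ha b hab)⟩)
      simpa using this
    · have := le_cc (G := G) (B := A) (T := {v}) ⟨by simpa using hvA, by simp⟩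
      simpa using this
  have hcut : ∀ S, S ⊆ A → (Cut G A S ↔ Cut G univ S) := by
    intro S hS
    have hr : ∀ p ∈ A \ S, ∀ q, Reach G (univ \ S) p q → Reach G (A \ S) p q := by
      intro p hp q h
      apply h.restrict hp
      intro a ha b hb hab
      exact mem_sdiff.2 ⟨hcl a (mem_sdiff.1 ha).1 b hab, (mem_sdiff.1 hb).2⟩
    have hsub : A \ S ⊆ univ \ S := sdiff_subset_sdiff (subset_univ _) (Subset.refl _)
    constructor
    · intro h
      refine ⟨subset_univ _, fun s hs => ?_⟩
      obtain ⟨p, hp, q, hq, h1, h2, h3⟩ := h.2 s hs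
      exact ⟨p, hsub hp, q, hsub hq, h1, h2, fun h4 => h3 (hr p hp q h4)⟩
    · intro h
      refine ⟨hS, fun s hs => ?_⟩
      obtain ⟨p, hp, q, hq, h1, h2, h3⟩ := h.2 s hs
      exact ⟨p, mem_sdiff.2 ⟨hcl s (hS hs) p h1, (mem_sdiff.1 hp).2⟩, q,
        mem_sdiff.2 ⟨hcl s (hS hs) q h2, (mem_sdiff.1 hq).2⟩, h1, h2,
        fun h4 => h3 (h4.mono hsub)⟩
  constructor
  · intro S hS
    have h1 := hunm S ((hcut S hS.1).1 hS)
    have h2 := hsplit S hS.1
    have h3 := hsplit ∅ (empty_subset _)
    rw [sdiff_empty, sdiff_empty] at h3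
    omega
  · intro S hS hne
    obtain ⟨s, hs, h⟩ := hacc S ((hcut S hS.1).1 hS) hne
    exact ⟨s, hs, (hcut _ ((erase_subset _ _).trans hS.1)).2 h⟩

omit [Fintype V] in
open Fin.CommRing in
theorem bad_of_cycle {k : ℕ} (f : SimpleGraph.cycleGraph (k + 5) ↪g G) :
    Bad G (univ.image f) ∧ ∀ i, Reach G (univ.image f) (f 0) (f i) := by
  have hadj : ∀ i j, G.Adj (f i) (f j) ↔ (i - j = 1 ∨ j - i = 1) := by
    intro i j
    rw [f.map_adj_iff]
    exact SimpleGraph.cycleGraph_adj (n := k + 3)
  have hmem : ∀ i, f i ∈ univ.image f := fun i => mem_image_of_mem _ (mem_univ _)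
  have path : ∀ (B : Finset V) (a : Fin (k + 5)) (m : ℕ) (hm : m < k + 5),
      (∀ j : Fin (k + 5), j.val ≤ m → f (a + j) ∈ B) → Reach G B (f a) (f (a + ⟨m, hm⟩)) := by
    intro B a m
    induction m with
    | zero =>
      intro hm _
      have : (⟨0, hm⟩ : Fin (k + 5)) = 0 := rfl
      rw [this, add_zero]
      exact Reach.refl _ _
    | succ m ih =>
      intro hm hB
      refine (ih (by omega) (fun j hj => hB j (by omega))).trans
        (Reach.step (hB _ (by simp)) (hB _ (by simp)) ((hadj _ _).2 (Or.inr ?_)))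
      rw [add_sub_add_left_eq_sub]
      apply Fin.ext
      rw [Fin.sub_val_of_le (by simp [Fin.le_def])]
      simp
  have h12 : (1 : Fin (k + 5)) + 1 ≠ 0 := by
    intro h
    have := congrArg Fin.val h
    simp [Fin.val_add, Nat.mod_eq_of_lt] at this
  have h13 : (1 : Fin (k + 5)) + 1 + 1 ≠ 0 := by
    intro h
    have := congrArg Fin.val h
    simp [Fin.val_add, Nat.mod_eq_of_lt] at this
  have h14 : (1 : Fin (k + 5)) + 1 + 1 + 1 ≠ 0 := by
    intro h
    have := congrArg Fin.val h
    simp [Fin.val_add, Nat.mod_eq_of_lt] at this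
  have h11 : (1 : Fin (k + 5)) ≠ 0 := by simp
  have hall : ∀ i, Reach G (univ.image f) (f 0) (f i) := by
    intro i
    have := path (univ.image f) 0 i.val i.2 (fun j _ => hmem _)
    simpa using this
  refine ⟨⟨⟨f 0, hmem 0⟩, ?_, ?_, ?_⟩, hall⟩
  · intro t u hu v hv hut hvt
    obtain ⟨i, -, rfl⟩ := mem_image.1 hu
    obtain ⟨j, -, rfl⟩ := mem_image.1 hv
    by_cases ht : t ∈ univ.image f
    · obtain ⟨a, -, rfl⟩ := mem_image.1 ht
      have key : ∀ i : Fin (k + 5), i ≠ a →
          Reach G ((univ.image f).erase (f a)) (f (a + 1)) (f i) := by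
        intro i hi
        have h1 := path ((univ.image f).erase (f a)) (a + 1) (i - (a + 1)).val (i - (a + 1)).2 (by
          intro j hj
          refine mem_erase.2 ⟨fun h => ?_, hmem _⟩
          have h2 : a + 1 + j = a := f.injective h
          have h3 : j = -1 := by linear_combination h2
          have h4 : i - (a + 1) = -1 := by
            apply le_antisymm
            · have : (-1 : Fin (k + 5)) = Fin.last (k + 4) := by
                rw [← Fin.neg_last, neg_neg]
              rw [this]
              exact Fin.le_last _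
            · rw [← h3]
              exact hj
          apply hi
          linear_combination h4)
        simpa using h1
      exact (key i (fun h => hut (h ▸ rfl))).symm.trans (key j (fun h => hvt (h ▸ rfl)))
    · rw [erase_eq_of_notMem ht]
      exact (hall i).symm.trans (hall j)
  · intro a ha
    obtain ⟨i, -, rfl⟩ := mem_image.1 ha
    refine ⟨f (i + 1), hmem _, f (i - 1), hmem _, ?_, (hadj _ _).2 (Or.inr (by ring)),
      (hadj _ _).2 (Or.inl (by ring))⟩
    intro h
    have h2 : i + 1 = i - 1 := f.injective h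
    apply h12
    linear_combination h2
  · intro a ha
    obtain ⟨i, -, rfl⟩ := mem_image.1 ha
    refine ⟨f (i + 1 + 1), hmem _, f (i + 1 + 1 + 1), hmem _, (hadj _ _).2 (Or.inr (by ring)),
      ?_, ?_, ?_, ?_⟩
    · intro h
      have h2 : i + 1 + 1 = i := f.injective h
      apply h12
      linear_combination h2
    · intro h
      have h2 : i + 1 + 1 + 1 = i := f.injective h
      apply h13
      linear_combination h2
    · rw [hadj]
      rintro (h | h)
      · apply h13
        linear_combination -h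
      · apply h11
        linear_combination h
    · rw [hadj]
      rintro (h | h)
      · apply h14
        linear_combination -h
      · apply h12
        linear_combination h

end Graph

theorem main (K : Type) [Field K] (n : ℕ) (G : SimpleGraph (Fin n)) (hg : 4 ≤ G.egirth)
    (h : IsCohenMacaulay (MvPolynomial (Fin n ⊕ Fin n) K ⧸ binomialEdgeIdeal K G))
    (k : ℕ) (hk : 3 ≤ k) (f : SimpleGraph.cycleGraph k ↪g G) : k = 4 := by
  classical
  have htri : ∀ a b c, G.Adj a b → G.Adj b c → ¬ G.Adj a c := by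
    intro a b c hab hbc hac
    have h3 : G.IsNClique 3 {a, b, c} := SimpleGraph.is3Clique_triple_iff.2 ⟨hab, hac, hbc⟩
    obtain ⟨u, w, hw, hl⟩ := SimpleGraph.is3Clique_iff_exists_cycle_length_three.1 ⟨_, h3⟩
    have := hg.trans (SimpleGraph.egirth_le_length hw)
    rw [hl] at this
    norm_num at this
  by_contra hne
  rcases (by omega : k = 3 ∨ 5 ≤ k) with rfl | h5
  · exact htri (f 0) (f 1) (f 2) (f.map_adj_iff.2 (by decide)) (f.map_adj_iff.2 (by decide))
      (f.map_adj_iff.2 (by decide))
  · obtain ⟨k, rfl⟩ := Nat.exists_eq_add_of_le' h5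
    obtain ⟨h1, h2⟩ := unm_acc_of_cm K G h
    obtain ⟨hbad, hall⟩ := bad_of_cycle f
    refine (concl_of_good htri _ (good_component h1 h2 (f 0))).1 _ ?_ hbad
    intro x hx
    obtain ⟨i, -, rfl⟩ := mem_image.1 hx
    exact mem_filter.2 ⟨mem_univ _, (hall i).mono (subset_univ _)⟩

end Pool.Agent.P.MP_e66ac9_al
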